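import Mathlib

/-!
# P4f18dfK.Ana: from the bound of the power sums to the bound of the first one

`L = ∑_{n<r} A_n X^n = ∏ (1 - a_i X)`, hence `S_j = - ∑ a_i ^ j`. Let `β = a_i ^ 2` and let `P` be
the polynomial with the zeros `a_j ^ 2 ≠ β`. The combination of the power sums `S_(2 μ + 2 k)` with
the coefficients of `P` is a multiple of `β ^ μ`, so `|β| ≤ ρ ^ 2`. The first power sum has at most
`r - 1` terms.
-/

set_option autoImplicit false

open Polynomial

namespace Pool.Agent.P4f18dfK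

namespace AnaAux

/-- Factorisation of a polynomial with the constant coefficient `1`. -/
theorem exists_mset (L : ℂ[X]) (h : L.coeff 0 = 1) :
    ∃ m : Multiset ℂ, Multiset.card m = L.natDegree ∧ L = (m.map fun a => 1 - C a * X).prod := by
  have hs := IsAlgClosed.splits L
  have key : ∀ s : Multiset ℂ, (∀ z ∈ s, z ≠ 0) →
      (s.map fun z => X - C z).prod =
        C ((s.map fun z => -z).prod) * ((s.map fun z => z⁻¹).map fun a => 1 - C a * X).prod := by
    intro s
    induction s using Multiset.induction with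
    | empty => simp
    | cons a s ih =>
      intro hz
      have ha : a ≠ 0 := hz a (Multiset.mem_cons_self a s)
      rw [Multiset.map_cons, Multiset.prod_cons, ih fun z hz' => hz z (Multiset.mem_cons_of_mem hz')]
      simp only [Multiset.map_cons, Multiset.prod_cons, C_mul, C_neg]
      have h1 : (C a : ℂ[X]) * C a⁻¹ = 1 := by rw [← C_mul, mul_inv_cancel₀ ha, C_1]
      have h2 : (X - C a : ℂ[X]) = -C a * (1 - C a⁻¹ * X) := by
        linear_combination (-X) * h1
      rw [h2]
      ring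
  have hne : ∀ z ∈ L.roots, z ≠ 0 := by
    rintro z hz rfl
    have h0 : L.eval 0 = 0 := (mem_roots'.1 hz).2
    rw [← coeff_zero_eq_eval_zero, h] at h0
    exact one_ne_zero h0
  refine ⟨L.roots.map fun z => z⁻¹, by rw [Multiset.card_map, hs.natDegree_eq_card_roots], ?_⟩
  have h1 := hs.eq_prod_roots
  rw [key _ hne, ← mul_assoc, ← C_mul] at h1
  have h2 : L.leadingCoeff * (L.roots.map fun z => -z).prod = 1 := by
    have h3 := congrArg (fun p => p.coeff 0) h1
    simp only [h] at h3
    rw [coeff_zero_eq_eval_zero, eval_mul, eval_C, eval_multiset_prod] at h3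
    simpa using h3.symm
  rw [h2, C_1, one_mul] at h1
  exact h1

/-- The logarithmic derivative of the product. -/
noncomputable def q (m : Multiset ℂ) : PowerSeries ℂ :=
  PowerSeries.mk fun j => if j = 0 then 0 else (m.map (· ^ j)).sum

theorem q_cons (a : ℂ) (m : Multiset ℂ) : q (a ::ₘ m) = q {a} + q m := by
  ext j
  simp only [q, PowerSeries.coeff_mk, map_add, Multiset.map_cons, Multiset.sum_cons,
    Multiset.map_singleton, Multiset.sum_singleton]
  split_ifs <;> simp

theorem one_sub_mul_q (a : ℂ) :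
    (1 - PowerSeries.C a * PowerSeries.X) * q {a} = PowerSeries.C a * PowerSeries.X := by
  ext j
  rw [sub_mul, one_mul, mul_assoc, map_sub, PowerSeries.coeff_C_mul, PowerSeries.coeff_C_mul]
  rcases j with _ | j
  · simp [q]
  · rw [PowerSeries.coeff_succ_X_mul]
    rcases j with _ | j
    · simp [q]
    · simp [q, PowerSeries.coeff_X, pow_succ]
      ring

theorem der_prod (m : Multiset ℂ) :
    PowerSeries.X * PowerSeries.derivative ℂ (((m.map fun a => (1 - C a * X : ℂ[X])).prod : ℂ[X]) :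
      PowerSeries ℂ) =
      -(((m.map fun a => (1 - C a * X : ℂ[X])).prod : ℂ[X]) : PowerSeries ℂ) * q m := by
  induction m using Multiset.induction with
  | empty =>
    have : q 0 = 0 := by
      ext j
      simp [q]
    simp [this]
  | cons a m ih =>
    rw [Multiset.map_cons, Multiset.prod_cons, Polynomial.coe_mul, Derivation.leibniz, q_cons]
    have h1 : PowerSeries.derivative ℂ (((1 - C a * X : ℂ[X]) : ℂ[X]) : PowerSeries ℂ) =
        -PowerSeries.C a := by
      rw [PowerSeries.derivative_coe]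
      simp
    have h2 : ((((1 - C a * X : ℂ[X]) : ℂ[X]) : PowerSeries ℂ)) =
        1 - PowerSeries.C a * PowerSeries.X := by simp
    rw [h1, h2, smul_eq_mul, smul_eq_mul]
    have h3 := one_sub_mul_q a
    linear_combination (1 - PowerSeries.C a * PowerSeries.X) * ih +
      (((m.map fun a => (1 - C a * X : ℂ[X])).prod : ℂ[X]) : PowerSeries ℂ) * h3

/-- Newton's identities. -/
theorem newton {A S : ℕ → ℂ} {L : ℂ[X]} (hL : ∀ n, L.coeff n = A n) (h0 : A 0 = 1)
    (hN : ∀ n : ℕ, (n : ℂ) * A n = ∑ j ∈ Finset.Icc 1 n, S j * A (n - j)) {m : Multiset ℂ}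
    (hm : L = (m.map fun a => (1 - C a * X : ℂ[X])).prod) {j : ℕ} (hj : 1 ≤ j) :
    S j = -(m.map (· ^ j)).sum := by
  have h1 : PowerSeries.X * PowerSeries.derivative ℂ (L : PowerSeries ℂ) =
      (L : PowerSeries ℂ) * PowerSeries.mk fun j => if j = 0 then 0 else S j := by
    ext n
    have h2 : PowerSeries.coeff n (PowerSeries.X * PowerSeries.derivative ℂ (L : PowerSeries ℂ)) =
        (n : ℂ) * A n := by
      rcases n with _ | n
      · simp
      · rw [PowerSeries.coeff_succ_X_mul, PowerSeries.coeff_derivative, Polynomial.coeff_coe, hL]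
        push_cast
        ring
    rw [h2, hN, mul_comm (L : PowerSeries ℂ), PowerSeries.coeff_mul,
      Finset.Nat.sum_antidiagonal_eq_sum_range_succ_mk, Finset.sum_range_succ']
    simp only [PowerSeries.coeff_mk, if_true, zero_mul, add_zero, Polynomial.coeff_coe, hL]
    rw [← Finset.Ico_add_one_right_eq_Icc, Finset.sum_Ico_eq_sum_range]
    refine Finset.sum_congr (by simp) fun i _ => ?_
    rw [if_neg (by omega), Nat.add_comm 1 i]
  have h3 := der_prod m
  rw [← hm, h1] at h3
  have hne : (L : PowerSeries ℂ) ≠ 0 := by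
    intro h
    have := congrArg (PowerSeries.coeff 0) h
    rw [Polynomial.coeff_coe, hL, h0] at this
    simp at this
  have h4 : (PowerSeries.mk fun j => if j = 0 then 0 else S j) = -q m :=
    mul_left_cancel₀ hne (by rw [h3]; ring)
  have h5 := congrArg (PowerSeries.coeff j) h4
  simpa [q, show j ≠ 0 by omega] using h5

/-- Bounded power sums: the terms are bounded. -/
theorem bound (m : Multiset ℂ) {C ρ : ℝ} (hρ : 0 < ρ)
    (hS : ∀ μ : ℕ, 1 ≤ μ → ‖(m.map (· ^ (2 * μ))).sum‖ ≤ C * ρ ^ (2 * μ)) {a : ℂ} (ha : a ∈ m) :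
    ‖a‖ ≤ ρ := by
  classical
  set s : Finset ℂ := (m.map (· ^ 2)).toFinset with hs
  set β : ℂ := a ^ 2 with hβ
  have hβs : β ∈ s := by
    rw [hs, Multiset.mem_toFinset]
    exact Multiset.mem_map_of_mem _ ha
  set P : ℂ[X] := ∏ γ ∈ s.erase β, (X - Polynomial.C γ) with hP
  have hPβ : P.eval β ≠ 0 := by
    rw [hP, eval_prod, Finset.prod_ne_zero_iff]
    intro γ hγ
    rw [eval_sub, eval_X, eval_C]
    exact sub_ne_zero.2 (Finset.ne_of_mem_erase hγ).symm
  have hPγ : ∀ b ∈ m, b ^ 2 ≠ β → P.eval (b ^ 2) = 0 := by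
    intro b hb hne
    rw [hP, eval_prod]
    refine Finset.prod_eq_zero (i := b ^ 2) (Finset.mem_erase.2 ⟨hne, ?_⟩) (by simp)
    rw [hs, Multiset.mem_toFinset]
    exact Multiset.mem_map_of_mem _ hb
  -- the combination of the power sums
  have hcomb : ∀ μ : ℕ, ∀ m' : Multiset ℂ, ∑ k ∈ Finset.range (P.natDegree + 1), P.coeff k *
      (m'.map (· ^ (2 * (μ + k)))).sum = (m'.map fun b => (b ^ 2) ^ μ * P.eval (b ^ 2)).sum := by
    intro μ m'
    induction m' using Multiset.induction with
    | empty => simp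
    | cons b m' ih =>
      simp only [Multiset.map_cons, Multiset.sum_cons, mul_add, Finset.sum_add_distrib] at ih ⊢
      rw [ih, Polynomial.eval_eq_sum_range, Finset.mul_sum]
      congr 1
      refine Finset.sum_congr rfl fun k _ => ?_
      rw [pow_add, pow_mul, pow_mul]
      ring
  have hcount : ∀ μ : ℕ, ∀ m' : Multiset ℂ, (∀ b ∈ m', b ^ 2 ≠ β → P.eval (b ^ 2) = 0) →
      (m'.map fun b => (b ^ 2) ^ μ * P.eval (b ^ 2)).sum =
        (Multiset.card (m'.filter fun b => b ^ 2 = β) : ℂ) * (β ^ μ * P.eval β) := by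
    intro μ m'
    induction m' using Multiset.induction with
    | empty => simp
    | cons b m' ih =>
      intro h
      rw [Multiset.map_cons, Multiset.sum_cons,
        ih fun c hc => h c (Multiset.mem_cons_of_mem hc)]
      by_cases hb : b ^ 2 = β
      · rw [Multiset.filter_cons_of_pos (p := fun b => b ^ 2 = β) _ hb, Multiset.card_cons, hb]
        push_cast
        ring
      · rw [Multiset.filter_cons_of_neg (p := fun b => b ^ 2 = β) _ hb, h b (Multiset.mem_cons_self b m') hb]
        ring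
  have hc : 1 ≤ Multiset.card (m.filter fun b => b ^ 2 = β) :=
    Multiset.card_pos.2 fun h => by
      have : a ∈ m.filter fun b => b ^ 2 = β := Multiset.mem_filter.2 ⟨ha, rfl⟩
      rw [h] at this
      exact Multiset.notMem_zero a this
  set D : ℝ := ∑ k ∈ Finset.range (P.natDegree + 1), ‖P.coeff k‖ * (C * ρ ^ (2 * k)) with hD
  have hmain : ∀ μ : ℕ, 1 ≤ μ → ‖β‖ ^ μ * ‖P.eval β‖ ≤ D * (ρ ^ 2) ^ μ := by
    intro μ hμ
    have h1 := (hcomb μ m).trans (hcount μ m hPγ)
    calc ‖β‖ ^ μ * ‖P.eval β‖ = 1 * (‖β‖ ^ μ * ‖P.eval β‖) := (one_mul _).symm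
      _ ≤ (Multiset.card (m.filter fun b => b ^ 2 = β) : ℝ) * (‖β‖ ^ μ * ‖P.eval β‖) := by
          gcongr
          exact_mod_cast hc
      _ = ‖(Multiset.card (m.filter fun b => b ^ 2 = β) : ℂ) * (β ^ μ * P.eval β)‖ := by
          rw [norm_mul, norm_mul (β ^ μ), norm_pow β μ, Complex.norm_natCast]
      _ = ‖∑ k ∈ Finset.range (P.natDegree + 1), P.coeff k *
            (m.map (· ^ (2 * (μ + k)))).sum‖ := by rw [h1]
      _ ≤ ∑ k ∈ Finset.range (P.natDegree + 1), ‖P.coeff k‖ * (C * ρ ^ (2 * (μ + k))) := by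
          refine (norm_sum_le _ _).trans (Finset.sum_le_sum fun k _ => ?_)
          rw [norm_mul]
          exact mul_le_mul_of_nonneg_left (hS _ (by omega)) (norm_nonneg _)
      _ = D * (ρ ^ 2) ^ μ := by
          rw [hD, Finset.sum_mul]
          refine Finset.sum_congr rfl fun k _ => ?_
          rw [mul_add, pow_add, pow_mul]
          ring
  have hPpos : 0 < ‖P.eval β‖ := norm_pos_iff.2 hPβ
  have hβρ : ‖β‖ ≤ ρ ^ 2 := by
    by_contra hlt
    rw [not_le] at hlt
    have h1 : 1 < ‖β‖ / ρ ^ 2 := by rwa [one_lt_div (by positivity)]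
    obtain ⟨n, hn⟩ := pow_unbounded_of_one_lt (max 1 (D / ‖P.eval β‖)) h1
    have hn1 : 1 ≤ n := by
      rcases Nat.eq_zero_or_pos n with h | h
      · rw [h, pow_zero] at hn
        exact absurd hn (not_lt.2 (le_max_left _ _))
      · exact h
    have h2 := lt_of_le_of_lt (le_max_right _ _) hn
    rw [div_pow, div_lt_div_iff₀ hPpos (by positivity)] at h2
    exact absurd (hmain n hn1) (not_le.2 h2)
  rw [hβ, norm_pow] at hβρ
  exact (pow_le_pow_iff_left₀ (norm_nonneg _) hρ.le (by norm_num)).1 hβρ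

end AnaAux

open AnaAux in
theorem ana {A S : ℕ → ℂ} {r : ℕ} {C ρ : ℝ} (hρ : 0 < ρ) (hr1 : 1 ≤ r) (h0 : A 0 = 1)
    (hr : ∀ n, r ≤ n → A n = 0)
    (hN : ∀ n : ℕ, (n : ℂ) * A n = ∑ j ∈ Finset.Icc 1 n, S j * A (n - j))
    (hS : ∀ μ : ℕ, 1 ≤ μ → ‖S (2 * μ)‖ ≤ C * ρ ^ (2 * μ)) :
    ‖A 1‖ ≤ ((r : ℝ) - 1) * ρ := by
  set L : ℂ[X] := ∑ n ∈ Finset.range r, monomial n (A n) with hLdef
  have hL : ∀ n, L.coeff n = A n := by
    intro n
    rw [hLdef, finsetSum_coeff]
    simp only [coeff_monomial, Finset.sum_ite_eq', Finset.mem_range]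
    split_ifs with h
    · rfl
    · exact (hr n (not_lt.1 h)).symm
  obtain ⟨m, hcard, hm⟩ := exists_mset L (by rw [hL, h0])
  have hnew : ∀ j : ℕ, 1 ≤ j → S j = -(m.map (· ^ j)).sum := fun j hj => newton hL h0 hN hm hj
  have hdeg : L.natDegree ≤ r - 1 := by
    rw [natDegree_le_iff_coeff_eq_zero]
    intro n hn
    rw [hL]
    exact hr n (by omega)
  have hb : ∀ a ∈ m, ‖a‖ ≤ ρ := fun a ha => bound m hρ (C := C) (fun μ hμ => by
    rw [← norm_neg, ← hnew _ (by omega)]
    exact hS μ hμ) ha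
  have h1 : A 1 = -m.sum := by
    have := hN 1
    rw [Finset.Icc_self, Finset.sum_singleton, h0, mul_one, Nat.cast_one, one_mul,
      hnew 1 le_rfl] at this
    simpa using this
  rw [h1, norm_neg]
  have h2 : ‖m.sum‖ ≤ (Multiset.card m : ℝ) * ρ := by
    clear hm hcard hnew h1
    induction m using Multiset.induction with
    | empty => simp
    | cons a m ih =>
      rw [Multiset.sum_cons, Multiset.card_cons]
      push_cast
      calc ‖a + m.sum‖ ≤ ‖a‖ + ‖m.sum‖ := norm_add_le _ _
        _ ≤ ρ + (Multiset.card m : ℝ) * ρ := add_le_add (hb a (Multiset.mem_cons_self a m))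
            (ih fun b hb' => hb b (Multiset.mem_cons_of_mem hb'))
        _ = _ := by ring
  refine h2.trans (mul_le_mul_of_nonneg_right ?_ hρ.le)
  have h3 : (Multiset.card m : ℝ) ≤ ((r - 1 : ℕ) : ℝ) := by
    exact_mod_cast hcard.trans_le hdeg
  rwa [Nat.cast_sub hr1, Nat.cast_one] at h3

end Pool.Agent.P4f18dfK
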