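import Pool.Agent.Lib.P4f18dfK.Step

/-!
# P4f18dfK.Bnd: the sums over the fields with `p^(2μ)` elements

PORT of `Pool/Agent/Lib/P07318w/KfBound.lean`. PROOF. `d = orderOf χ > 1`, `d | p - 1 | Q - 1`; `F = GaloisField p (2μ)`, `Q = p^(2μ)`, `f = ∏ (C (b i) - X)^(E i) ∈ F[X]`, degree `m = ∑ E i`.
`∏ (χ ^ E i) (N(b i - x)) = χ (N (f x))` (`E i > 0`). For `c ∈ F^*` let `N_c` be the number of `x` with `f x ≠ 0`, `χ (N (c f x)) = 1`, that is `(c f x) ^ ((Q-1)/d) = 1`; `kstep` for `C c * f`: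
`d N_c ≤ Q + C R`, `R = p^μ`. Let `K` be the number of `c` with `χ (N c) = 1`; `Q - 1 ≤ d K`. `K SF = ∑_c (χ (N c))⁻¹ N_c`, `∑_c (χ (N c))⁻¹ = 0`, `∑_c N_c = K #(f x ≠ 0)`:
`K ‖SF‖ ≤ (Q - 1) B - K (Q - m) ≤ K (C R + m)`, `B = (Q + C R)/d`.
-/

set_option autoImplicit false

open Polynomial

namespace Pool.Agent.P4f18dfK

namespace BndAux

/-- the averaging argument for a multiplicative character of a finite field -/
theorem char_avg {F : Type*} [Field F] [Fintype F] [DecidableEq F] {ψ : MulChar F ℂ} (hψ : ψ ≠ 1)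
    {d : ℕ} (hd : 0 < d) (hψd : ∀ c : Fˣ, ψ c ^ d = 1) (g : F → F) {B : ℝ} (hB0 : 0 ≤ B)
    (hB : ∀ c : Fˣ,
      ((Finset.univ.filter fun x => g x ≠ 0 ∧ ψ (c * g x) = 1).card : ℝ) ≤ B) :
    ‖∑ x, ψ (g x)‖ ≤ d * B - ((Finset.univ.filter fun x => g x ≠ 0).card : ℝ) := by
  classical
  set K : ℕ := (Finset.univ.filter fun c : Fˣ => ψ c = 1).card with hK
  set N : Fˣ → ℕ := fun c => (Finset.univ.filter fun x => g x ≠ 0 ∧ ψ (c * g x) = 1).card with hN
  have hne : ∀ c : Fˣ, ψ c ≠ 0 := fun c h => by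
    have h1 := hψd c
    rw [h, zero_pow hd.ne'] at h1
    exact zero_ne_one h1
  have hKpos : 0 < K := by
    rw [hK, Finset.card_pos]
    exact ⟨1, by simp⟩
  -- `Q - 1 ≤ d K`
  have hdK : (Fintype.card Fˣ : ℝ) ≤ d * K := by
    have h1 : (Finset.univ : Finset Fˣ).card ≤
        K * (Finset.univ.image fun c : Fˣ => ψ c).card := by
      refine Finset.card_le_mul_card_image _ _ fun z hz => ?_
      obtain ⟨c₀, -, rfl⟩ := Finset.mem_image.1 hz
      refine le_of_eq ?_
      rw [hK]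
      refine Finset.card_nbij' (fun c => c * c₀⁻¹) (fun c => c * c₀) ?_ ?_ ?_ ?_
      · intro c hc
        simp only [Finset.coe_filter, Finset.mem_univ, true_and, Set.mem_ofPred_eq] at hc ⊢
        have h2 : ψ ((c * c₀⁻¹ : Fˣ) : F) * ψ c₀ = ψ c := by
          rw [← map_mul, ← Units.val_mul, inv_mul_cancel_right]
        rw [hc] at h2
        exact mul_right_cancel₀ (hne c₀) (h2.trans (one_mul _).symm)
      · intro c hc
        simp only [Finset.coe_filter, Finset.mem_univ, true_and, Set.mem_ofPred_eq] at hc ⊢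
        rw [Units.val_mul, map_mul, hc, one_mul]
      · intro c _
        exact inv_mul_cancel_right c c₀
      · intro c _
        exact mul_inv_cancel_right c c₀
    have h2 : (Finset.univ.image fun c : Fˣ => ψ c).card ≤ d := by
      have h3 : (Finset.univ.image fun c : Fˣ => ψ c) ⊆ (nthRootsFinset d (1 : ℂ)) := by
        intro z hz
        obtain ⟨c₀, -, rfl⟩ := Finset.mem_image.1 hz
        rw [mem_nthRootsFinset hd]
        exact hψd c₀
      refine (Finset.card_le_card h3).trans ?_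
      unfold nthRootsFinset
      exact (Multiset.toFinset_card_le _).trans (card_nthRoots d 1)
    have h4 : Fintype.card Fˣ ≤ d * K := by
      rw [← Finset.card_univ]
      refine h1.trans ?_
      rw [mul_comm]
      exact Nat.mul_le_mul_right _ h2
    exact_mod_cast h4
  -- the averages
  have hav : ∀ y : F, y ≠ 0 →
      (∑ c : Fˣ, if ψ (c * y) = 1 then (ψ c)⁻¹ else 0) = (K : ℂ) * ψ y := by
    intro y hy
    set u : Fˣ := Units.mk0 y hy with hu
    have h1 : (∑ c : Fˣ, if ψ (c * y) = 1 then (ψ c)⁻¹ else 0) =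
        ∑ c : Fˣ, if ψ c = 1 then ψ y else 0 := by
      refine Fintype.sum_equiv (Equiv.mulRight u) _ _ fun c => ?_
      have h2 : ψ ((Equiv.mulRight u c : Fˣ) : F) = ψ (c * y) := by
        rw [Equiv.coe_mulRight, Units.val_mul, hu, Units.val_mk0]
      rw [h2]
      by_cases h3 : ψ (c * y) = 1
      · rw [if_pos h3, if_pos h3]
        rw [map_mul] at h3
        exact inv_eq_of_mul_eq_one_right h3
      · rw [if_neg h3, if_neg h3]
    rw [h1, ← Finset.sum_filter, Finset.sum_const, nsmul_eq_mul]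
  have hav1 : ∀ y : F, y ≠ 0 →
      (Finset.univ.filter fun c : Fˣ => ψ (c * y) = 1).card = K := by
    intro y hy
    set u : Fˣ := Units.mk0 y hy with hu
    rw [hK]
    refine Finset.card_nbij' (fun c => c * u) (fun c => c * u⁻¹) ?_ ?_ ?_ ?_
    · intro c hc
      simp only [Finset.coe_filter, Finset.mem_univ, true_and, Set.mem_ofPred_eq] at hc ⊢
      rw [Units.val_mul, hu, Units.val_mk0]
      exact hc
    · intro c hc
      simp only [Finset.coe_filter, Finset.mem_univ, true_and, Set.mem_ofPred_eq] at hc ⊢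
      have h2 : ((c * u⁻¹ : Fˣ) : F) * y = c := by
        have h3 : y = (u : F) := by rw [hu, Units.val_mk0]
        rw [h3, ← Units.val_mul, inv_mul_cancel_right]
      rw [h2]
      exact hc
    · intro c _
      exact mul_inv_cancel_right c u
    · intro c _
      exact inv_mul_cancel_right c u
  -- `∑_c (ψ c)⁻¹ = 0`
  have hsum : ∑ c : Fˣ, (ψ c)⁻¹ = 0 := by
    have h1 : ψ⁻¹ ≠ 1 := fun h => hψ (by rwa [inv_eq_one] at h)
    have h2 := MulChar.sum_eq_zero_of_ne_one h1
    rw [← h2]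
    have h3 : ∑ a : F, ψ⁻¹ a = ∑ a ∈ Finset.univ.filter (fun a : F => a ≠ 0), ψ⁻¹ a := by
      rw [Finset.sum_filter]
      refine Finset.sum_congr rfl fun a _ => ?_
      by_cases ha : a = 0
      · rw [ha, if_neg (fun h => h rfl), MulChar.map_zero]
      · rw [if_pos ha]
    rw [h3]
    refine Finset.sum_bij (fun c _ => (c : F)) ?_ ?_ ?_ ?_
    · intro c _
      simp
    · intro c _ c' _ h
      exact Units.ext h
    · intro a ha
      rw [Finset.mem_filter] at ha
      exact ⟨Units.mk0 a ha.2, Finset.mem_univ _, rfl⟩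
    · intro c _
      rw [MulChar.inv_apply_eq_inv']
  -- `K S = ∑_c (ψ c)⁻¹ N c`
  have hKS : (K : ℂ) * ∑ x, ψ (g x) = ∑ c : Fˣ, (ψ c)⁻¹ * (N c : ℂ) := by
    have h1 : ∀ c : Fˣ, (ψ c)⁻¹ * (N c : ℂ) =
        ∑ x : F, if g x ≠ 0 then (if ψ (c * g x) = 1 then (ψ c)⁻¹ else 0) else 0 := by
      intro c
      have h2 : ∀ x : F, (if g x ≠ 0 then (if ψ (c * g x) = 1 then (ψ c)⁻¹ else 0) else 0) =
          if (g x ≠ 0 ∧ ψ (c * g x) = 1) then (ψ c)⁻¹ else 0 := by
        intro x
        by_cases h3 : g x ≠ 0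
        · by_cases h4 : ψ (c * g x) = 1
          · rw [if_pos h3, if_pos h4, if_pos ⟨h3, h4⟩]
          · rw [if_pos h3, if_neg h4, if_neg (fun h => h4 h.2)]
        · rw [if_neg h3, if_neg (fun h => h3 h.1)]
      rw [Finset.sum_congr rfl fun x _ => h2 x, ← Finset.sum_filter, Finset.sum_const,
        nsmul_eq_mul, mul_comm]
    rw [Finset.sum_congr rfl fun c _ => h1 c, Finset.sum_comm, Finset.mul_sum]
    refine Finset.sum_congr rfl fun x _ => ?_
    by_cases h3 : g x ≠ 0
    · rw [← hav (g x) h3]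
      refine Finset.sum_congr rfl fun c _ => ?_
      rw [if_pos h3]
    · have h4 : g x = 0 := not_not.1 h3
      rw [h4, MulChar.map_zero, mul_zero]
      symm
      refine Finset.sum_eq_zero fun c _ => ?_
      rw [if_neg (fun h => h rfl)]
  have hNsum : ∑ c : Fˣ, (N c : ℝ) = K * ((Finset.univ.filter fun x => g x ≠ 0).card : ℝ) := by
    have h1 : ∑ c : Fˣ, N c = K * (Finset.univ.filter fun x => g x ≠ 0).card := by
      have h2 : ∀ c : Fˣ, N c =
          ∑ x ∈ Finset.univ.filter (fun x => g x ≠ 0), if ψ (c * g x) = 1 then 1 else 0 := by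
        intro c
        rw [hN, ← Finset.sum_filter, Finset.filter_filter, Finset.sum_const, smul_eq_mul, mul_one]
      rw [Finset.sum_congr rfl fun c _ => h2 c, Finset.sum_comm, mul_comm, ← smul_eq_mul,
        ← Finset.sum_const]
      refine Finset.sum_congr rfl fun x hx => ?_
      rw [← hav1 (g x) (Finset.mem_filter.1 hx).2, ← Finset.sum_filter, Finset.sum_const,
        smul_eq_mul, mul_one]
    exact_mod_cast h1
  have hnorm : ∀ c : Fˣ, ‖(ψ c)⁻¹‖ = 1 := by
    intro c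
    rw [norm_inv]
    have h1 : ‖ψ c‖ ^ d = 1 := by rw [← norm_pow, hψd c, norm_one]
    rw [(pow_eq_one_iff_of_nonneg (norm_nonneg _) hd.ne').1 h1, inv_one]
  have h6 : (K : ℂ) * ∑ x, ψ (g x) = -∑ c : Fˣ, ((B - N c : ℝ) : ℂ) * (ψ c)⁻¹ := by
    have h7 : ∑ c : Fˣ, ((B - N c : ℝ) : ℂ) * (ψ c)⁻¹ =
        (B : ℂ) * ∑ c : Fˣ, (ψ c)⁻¹ - ∑ c : Fˣ, (ψ c)⁻¹ * (N c : ℂ) := by
      rw [Finset.mul_sum, ← Finset.sum_sub_distrib]
      refine Finset.sum_congr rfl fun c _ => ?_
      push_cast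
      ring
    rw [h7, hsum, hKS]
    ring
  have hKr : (0 : ℝ) < K := by exact_mod_cast hKpos
  have h8 : (K : ℝ) * ‖∑ x, ψ (g x)‖ ≤
      Fintype.card Fˣ * B - K * ((Finset.univ.filter fun x => g x ≠ 0).card : ℝ) := by
    have h9 : (K : ℝ) * ‖∑ x, ψ (g x)‖ = ‖(K : ℂ) * ∑ x, ψ (g x)‖ := by
      rw [norm_mul, Complex.norm_natCast]
    rw [h9, h6, norm_neg]
    refine (norm_sum_le _ _).trans ?_
    have h10 : ∀ c : Fˣ, ‖((B - N c : ℝ) : ℂ) * (ψ c)⁻¹‖ = B - N c := by
      intro c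
      rw [norm_mul, Complex.norm_real, Real.norm_eq_abs, abs_of_nonneg (sub_nonneg.2 (hB c)),
        hnorm c, mul_one]
    rw [Finset.sum_congr rfl fun c _ => h10 c, Finset.sum_sub_distrib, hNsum, Finset.sum_const,
      Finset.card_univ, nsmul_eq_mul]
  have h11 : (Fintype.card Fˣ : ℝ) * B ≤ K * (d * B) := by
    have := mul_le_mul_of_nonneg_right hdK hB0
    linarith
  refine le_of_mul_le_mul_left ?_ hKr
  rw [mul_sub]
  linarith

/-- the units of norm in the kernel of `χ` -/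
theorem pow_eq_one_of_norm {p : ℕ} [Fact p.Prime] {F : Type} [Field F] [Fintype F]
    [Algebra (ZMod p) F] {χ : MulChar (ZMod p) ℂ} {y : F} (hy : y ≠ 0)
    (h : χ (Algebra.norm (ZMod p) y) = 1) : y ^ ((Fintype.card F - 1) / orderOf χ) = 1 := by
  classical
  have hp : p.Prime := Fact.out
  set d := orderOf χ with hd
  have hdp : d ∣ p - 1 := by
    have := MulChar.orderOf_dvd_card_sub_one (ZMod p) χ
    rwa [ZMod.card] at this
  have hd0 : 0 < d := MulChar.orderOf_pos χ
  set a : (ZMod p)ˣ := Units.mk0 (Algebra.norm (ZMod p) y) (by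
    rw [Ne, Algebra.norm_eq_zero_iff]; exact hy) with ha
  obtain ⟨g, hg⟩ := IsCyclic.exists_generator (α := (ZMod p)ˣ)
  obtain ⟨j, hj⟩ : ∃ j : ℕ, g ^ j = a := by
    obtain ⟨j, hj⟩ := (Submonoid.mem_powers_iff _ _).1
      ((mem_powers_iff_mem_zpowers (x := g) (y := a)).2 (hg a))
    exact ⟨j, hj⟩
  have h1 : χ ^ j = 1 := by
    rw [MulChar.eq_iff hg, MulChar.pow_apply_coe, ← map_pow, ← Units.val_pow_eq_pow_val, hj, ha,
      Units.val_mk0, h, MulChar.one_apply_coe]
  have h2 : d ∣ j := orderOf_dvd_of_pow_eq_one h1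
  have h3 : a ^ ((p - 1) / d) = 1 := by
    obtain ⟨l, rfl⟩ := h2
    rw [← hj, ← pow_mul]
    have h4 : d * l * ((p - 1) / d) = (p - 1) * l := by
      rw [mul_right_comm, Nat.mul_div_cancel' hdp]
    rw [h4, pow_mul]
    have h5 : g ^ (p - 1) = 1 := by
      have := pow_card_eq_one (x := g)
      rwa [ZMod.card_units_eq_totient, Nat.totient_prime hp] at this
    rw [h5, one_pow]
  have h6 : (Algebra.norm (ZMod p) y) ^ ((p - 1) / d) = 1 := by
    have := congrArg Units.val h3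
    rwa [Units.val_pow_eq_pow_val, ha, Units.val_mk0, Units.val_one] at this
  have h7 := congrArg (algebraMap (ZMod p) F) h6
  rw [map_pow, FiniteField.algebraMap_norm_eq_pow, map_one, ← pow_mul, Nat.card_zmod,
    Nat.card_eq_fintype_card] at h7
  have hpQ : p - 1 ∣ Fintype.card F - 1 := by
    have h8 := Module.card_eq_pow_finrank (K := ZMod p) (V := F)
    rw [ZMod.card] at h8
    rw [h8]
    have := Nat.sub_dvd_pow_sub_pow p 1 (Module.finrank (ZMod p) F)
    rwa [one_pow] at this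
  have h9 : (Fintype.card F - 1) / (p - 1) * ((p - 1) / d) = (Fintype.card F - 1) / d := by
    obtain ⟨l, hl⟩ := hpQ
    obtain ⟨n, hn⟩ := hdp
    have hp1 : 0 < p - 1 := by have := hp.two_le; omega
    rw [hl, Nat.mul_div_cancel_left _ hp1, hn, Nat.mul_div_cancel_left _ hd0,
      mul_assoc d n l, Nat.mul_div_cancel_left _ hd0, mul_comm]
  rwa [h9] at h7

/-- the composition of a multiplicative character with the norm -/
noncomputable def compNorm {p : ℕ} [Fact p.Prime] (F : Type) [Field F] [Finite F]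
    [Algebra (ZMod p) F] (χ : MulChar (ZMod p) ℂ) : MulChar F ℂ where
  toFun y := χ (Algebra.norm (ZMod p) y)
  map_one' := by rw [map_one, map_one]
  map_mul' x y := by rw [map_mul, map_mul]
  map_nonunit' y hy := by
    have h1 : y = 0 := by
      by_contra h
      exact hy (IsUnit.mk0 y h)
    rw [h1, Algebra.norm_zero, MulChar.map_zero]

theorem compNorm_apply {p : ℕ} [Fact p.Prime] {F : Type} [Field F] [Finite F]
    [Algebra (ZMod p) F] (χ : MulChar (ZMod p) ℂ) (y : F) :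
    compNorm F χ y = χ (Algebra.norm (ZMod p) y) := rfl

theorem compNorm_ne_one {p : ℕ} [Fact p.Prime] {F : Type} [Field F] [Finite F]
    [Algebra (ZMod p) F] {χ : MulChar (ZMod p) ℂ} (hχ : χ ≠ 1) : compNorm F χ ≠ 1 := by
  intro h
  obtain ⟨a, ha⟩ := MulChar.ne_one_iff.1 hχ
  obtain ⟨y, hy⟩ := FiniteField.norm_surjective (ZMod p) F (a : ZMod p)
  have hy0 : y ≠ 0 := by
    rintro rfl
    rw [Algebra.norm_zero] at hy
    exact a.ne_zero hy.symm
  apply ha
  rw [← hy, ← compNorm_apply, h]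
  exact MulChar.one_apply (IsUnit.mk0 y hy0)

theorem compNorm_pow {p : ℕ} [Fact p.Prime] {F : Type} [Field F] [Finite F]
    [Algebra (ZMod p) F] (χ : MulChar (ZMod p) ℂ) (c : Fˣ) : compNorm F χ c ^ orderOf χ = 1 := by
  have h0 : Algebra.norm (ZMod p) (c : F) ≠ 0 := by
    rw [Ne, Algebra.norm_eq_zero_iff]; exact c.ne_zero
  rw [compNorm_apply]
  have h1 := MulChar.pow_apply_coe χ (orderOf χ) (Units.mk0 _ h0)
  rw [pow_orderOf_eq_one, MulChar.one_apply_coe, Units.val_mk0] at h1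
  exact h1.symm

end BndAux

open BndAux in
theorem sf_bound {p r : ℕ} [Fact p.Prime] (b : Fin r → ZMod p) {χ : MulChar (ZMod p) ℂ} (hχ : χ ≠ 1)
    {E : Fin r → ℕ} (hE : ∀ i, 0 < E i) (hc : (∑ i, E i).Coprime (orderOf χ)) :
    ∃ C : ℝ, 0 ≤ C ∧ ∀ μ : ℕ, 1 ≤ μ → ‖SF b (fun i => χ ^ E i) (2 * μ)‖ ≤ C * (p : ℝ) ^ μ := by
  classical
  have hp : p.Prime := Fact.out
  have hp1 : (1 : ℝ) ≤ p := by exact_mod_cast hp.one_le
  set d := orderOf χ with hd
  set m := ∑ i, E i with hm
  have hd0 : 0 < d := MulChar.orderOf_pos χ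
  have hdp : d ∣ p - 1 := by
    have := MulChar.orderOf_dvd_card_sub_one (ZMod p) χ
    rwa [ZMod.card] at this
  refine ⟨kC m d + m, by positivity, fun μ hμ => ?_⟩
  letI : Fintype (GaloisField p (2 * μ)) := Fintype.ofFinite _
  have hcard : Fintype.card (GaloisField p (2 * μ)) = (p ^ μ) ^ 2 := by
    rw [← Nat.card_eq_fintype_card, GaloisField.card p (2 * μ) (by omega), ← pow_mul, mul_comm]
  set f : (GaloisField p (2 * μ))[X] :=
    ∏ i, (C (algebraMap (ZMod p) (GaloisField p (2 * μ)) (b i)) - X) ^ E i with hf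
  have hfac : ∀ i, (C (algebraMap (ZMod p) (GaloisField p (2 * μ)) (b i)) - X) ≠ 0 ∧
      (C (algebraMap (ZMod p) (GaloisField p (2 * μ)) (b i)) - X).natDegree = 1 := by
    intro i
    have h1 : (C (algebraMap (ZMod p) (GaloisField p (2 * μ)) (b i)) - X) =
        -(X - C (algebraMap (ZMod p) (GaloisField p (2 * μ)) (b i))) := by ring
    rw [h1]
    exact ⟨neg_ne_zero.2 (X_sub_C_ne_zero _), by rw [natDegree_neg, natDegree_X_sub_C]⟩
  have hf0 : f ≠ 0 := Finset.prod_ne_zero_iff.2 fun i _ => pow_ne_zero _ (hfac i).1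
  have hfdeg : f.natDegree = m := by
    rw [hf, natDegree_prod _ _ fun i _ => pow_ne_zero _ (hfac i).1, hm]
    refine Finset.sum_congr rfl fun i _ => ?_
    rw [natDegree_pow, (hfac i).2, mul_one]
  have hdF : d ∣ Fintype.card (GaloisField p (2 * μ)) - 1 := by
    have h1 : p - 1 ∣ Fintype.card (GaloisField p (2 * μ)) - 1 := by
      rw [hcard, ← pow_mul]
      have := Nat.sub_dvd_pow_sub_pow p 1 (μ * 2)
      rwa [one_pow] at this
    exact hdp.trans h1
  -- the sum
  have hSF : SF b (fun i => χ ^ E i) (2 * μ) =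
      ∑ x, compNorm (GaloisField p (2 * μ)) χ (f.eval x) := by
    unfold SF
    rw [finsum_eq_sum_of_fintype]
    refine Finset.sum_congr rfl fun x _ => ?_
    rw [hf, eval_prod, map_prod]
    refine Finset.prod_congr rfl fun i _ => ?_
    rw [MulChar.pow_apply' χ (hE i).ne', eval_pow, map_pow, eval_sub, eval_C, eval_X,
      compNorm_apply]
  rw [hSF]
  set B : ℝ := (((p : ℝ) ^ μ) ^ 2 + kC m d * (p : ℝ) ^ μ) / d with hB
  have hd0' : (0 : ℝ) < d := by exact_mod_cast hd0
  have h1 := char_avg (F := GaloisField p (2 * μ)) (compNorm_ne_one hχ) hd0 (compNorm_pow χ)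
    (fun x => f.eval x) (B := B) (by positivity) (fun c => by
      have h2 := kstep (F := GaloisField p (2 * μ)) (p := p) (μ := μ) hd0 hc hcard hdF
        (f := C (c : GaloisField p (2 * μ)) * f)
        (by rw [natDegree_C_mul c.ne_zero, hfdeg])
        (mul_ne_zero (C_ne_zero.2 c.ne_zero) hf0)
      rw [hB, le_div_iff₀ hd0', mul_comm]
      refine le_trans ?_ (by exact_mod_cast h2 :
        ((d : ℝ) * ((Finset.univ.filter (fun x : GaloisField p (2 * μ) =>
          (C (c : GaloisField p (2 * μ)) * f).eval x ≠ 0 ∧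
          (C (c : GaloisField p (2 * μ)) * f).eval x ^
            ((Fintype.card (GaloisField p (2 * μ)) - 1) / d) = 1)).card : ℝ)) ≤
          ((p : ℝ) ^ μ) ^ 2 + kC m d * (p : ℝ) ^ μ)
      refine mul_le_mul_of_nonneg_left ?_ hd0'.le
      rw [Nat.cast_le]
      refine Finset.card_le_card fun x hx => ?_
      rw [Finset.mem_filter] at hx ⊢
      have h3 : c * f.eval x ≠ 0 := mul_ne_zero c.ne_zero hx.2.1
      rw [eval_mul, eval_C]
      exact ⟨Finset.mem_univ _, h3, pow_eq_one_of_norm h3 hx.2.2⟩)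
  refine h1.trans ?_
  -- the number of `x` with `f x ≠ 0`
  have h2 : ((p : ℝ) ^ μ) ^ 2 - m ≤ ((Finset.univ.filter fun x => f.eval x ≠ 0).card : ℝ) := by
    have h3 : (Finset.univ.filter fun x => f.eval x = 0).card ≤ m := by
      rw [← hfdeg]
      refine le_trans (Finset.card_le_card fun x hx => ?_)
        ((Multiset.toFinset_card_le f.roots).trans (card_roots' f))
      rw [Multiset.mem_toFinset, mem_roots hf0]
      exact (Finset.mem_filter.1 hx).2
    have h4 := Finset.card_filter_add_card_filter_not (s := Finset.univ)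
      (fun x : GaloisField p (2 * μ) => f.eval x = 0)
    rw [Finset.card_univ, hcard] at h4
    have h5 : ((Finset.univ.filter fun x => f.eval x = 0).card : ℝ) ≤ m := by exact_mod_cast h3
    have h6 : ((Finset.univ.filter fun x => f.eval x = 0).card : ℝ) +
        ((Finset.univ.filter fun x => ¬ f.eval x = 0).card : ℝ) = ((p : ℝ) ^ μ) ^ 2 := by
      exact_mod_cast h4
    have h7 : ((Finset.univ.filter fun x => f.eval x ≠ 0).card : ℝ) =
        ((Finset.univ.filter fun x => ¬ f.eval x = 0).card : ℝ) := rfl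
    rw [h7]
    linarith
  have h8 : (d : ℝ) * B = ((p : ℝ) ^ μ) ^ 2 + kC m d * (p : ℝ) ^ μ := by
    rw [hB, mul_div_cancel₀ _ hd0'.ne']
  have h9 : (m : ℝ) ≤ m * (p : ℝ) ^ μ := le_mul_of_one_le_right (Nat.cast_nonneg _) (one_le_pow₀ hp1)
  rw [h8]
  nlinarith [h2, h9]

end Pool.Agent.P4f18dfK
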