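import Pool.Agent.Lib.P07318w.MpMem

/-!
# P4f18dfK.Defs: sums of multiplicative characters over a prime field, the L-function

Goal of the package: Weil's bound for `∑_x ∏_i χ ^ e_i (x + b_i)` modulo a prime, for characters of ALL orders.
-/

set_option autoImplicit false

open Polynomial

namespace Pool.Agent.P4f18dfK

open Classical in
/-- The monic polynomials of degree `d`. -/
noncomputable def mq (p d : ℕ) [Fact p.Prime] : Finset (ZMod p)[X] :=
  (Finset.univ : Finset (Fin d → ZMod p)).image (P07318w.mpoly p d)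

/-- Multiplicative on monic polynomials. -/
def MulOn {p : ℕ} (lam : (ZMod p)[X] → ℂ) : Prop :=
  lam 1 = 1 ∧ ∀ g h : (ZMod p)[X], g.Monic → h.Monic → lam (g * h) = lam g * lam h

/-- The coefficient of `T^d` in the L-function `∑ lam(h) T^(deg h)`. -/
noncomputable def Ls {p : ℕ} [Fact p.Prime] (lam : (ZMod p)[X] → ℂ) (d : ℕ) : ℂ := ∑ h ∈ mq p d, lam h

open Classical in
/-- The coefficient of `T^r` in the logarithmic derivative of the L-function. -/
noncomputable def Kr {p : ℕ} [Fact p.Prime] (lam : (ZMod p)[X] → ℂ) (r : ℕ) : ℂ :=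
  ∑ n ∈ r.divisors, ∑ P ∈ (mq p n).filter (fun P => Irreducible P), (n : ℂ) * lam P ^ (r / n)

/-- `∏_i ψ_i (h(b_i))`. -/
noncomputable def lamb {p r : ℕ} (b : Fin r → ZMod p) (ψ : Fin r → MulChar (ZMod p) ℂ) (h : (ZMod p)[X]) : ℂ :=
  ∏ i, ψ i (h.eval (b i))

/-- The sum over the field with `p^n` elements. -/
noncomputable def SF {p r : ℕ} [Fact p.Prime] (b : Fin r → ZMod p) (ψ : Fin r → MulChar (ZMod p) ℂ) (n : ℕ) : ℂ :=
  ∑ᶠ x : GaloisField p n, ∏ i, ψ i (Algebra.norm (ZMod p) (algebraMap (ZMod p) (GaloisField p n) (b i) - x))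

theorem mem_mq {p : ℕ} [Fact p.Prime] {d : ℕ} {h : (ZMod p)[X]} : h ∈ mq p d ↔ h.Monic ∧ h.natDegree = d := by
  classical
  unfold mq
  rw [Finset.mem_image]
  constructor
  · rintro ⟨c, -, rfl⟩
    exact ⟨P07318w.MpMemAux.mpoly_monic c, P07318w.MpMemAux.mpoly_natDegree c⟩
  · rintro ⟨h1, h2⟩
    exact ⟨_, Finset.mem_univ _, P07318w.MpMemAux.mpoly_self h1 h2⟩

theorem mulOn_lamb {p r : ℕ} (b : Fin r → ZMod p) (ψ : Fin r → MulChar (ZMod p) ℂ) : MulOn (lamb b ψ) := by
  refine ⟨?_, fun g h _ _ => ?_⟩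
  · simp [lamb]
  · simp only [lamb, eval_mul, map_mul, Finset.prod_mul_distrib]

/-! ### Kummer curves: monomials `x^i y^j`, `j < d`, by their pole order `d i + m j` -/

/-- `k` is `d i + m j` with `j < d` for every `k ≥ m d` (`m`, `d` coprime). -/
theorem rep_exists {m d : ℕ} (hd : 0 < d) (hmd : m.Coprime d) {k : ℕ} (hk : m * d ≤ k) :
    ∃ i j : ℕ, j < d ∧ d * i + m * j = k := by
  obtain ⟨u, hu⟩ : ∃ u : ℕ, m * u % d = k % d := by
    rcases Nat.lt_or_ge 1 d with h1 | h1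
    · obtain ⟨v, hv⟩ := Nat.exists_mul_mod_eq_one_of_coprime hmd h1
      refine ⟨v * k, ?_⟩
      rw [← mul_assoc, Nat.mul_mod, hv.2, one_mul, Nat.mod_mod]
    · have h2 : d = 1 := by omega
      subst h2
      exact ⟨0, by simp [Nat.mod_one]⟩
  have hj : u % d < d := Nat.mod_lt _ hd
  have h3 : m * (u % d) % d = k % d := by rw [Nat.mul_mod, Nat.mod_mod, ← Nat.mul_mod, hu]
  have h4 : m * (u % d) ≤ k := le_trans (Nat.mul_le_mul_left _ hj.le) hk
  refine ⟨(k - m * (u % d)) / d, u % d, hj, ?_⟩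
  have h5 : d ∣ k - m * (u % d) := (Nat.modEq_iff_dvd' h4).1 h3
  rw [Nat.mul_div_cancel' h5]
  omega

open Classical in
/-- the exponent of `x` of the monomial of pole order `k` -/
noncomputable def ii (m d k : ℕ) : ℕ :=
  if h : ∃ i j : ℕ, j < d ∧ d * i + m * j = k then h.choose else 0

open Classical in
/-- the exponent of `y` -/
noncomputable def jj (m d k : ℕ) : ℕ :=
  if h : ∃ i j : ℕ, j < d ∧ d * i + m * j = k then h.choose_spec.choose else 0

theorem ij_spec {m d : ℕ} (hd : 0 < d) (hmd : m.Coprime d) {k : ℕ} (hk : m * d ≤ k) :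
    jj m d k < d ∧ d * ii m d k + m * jj m d k = k := by
  classical
  have h := rep_exists hd hmd hk
  unfold ii jj
  rw [dif_pos h, dif_pos h]
  exact h.choose_spec.choose_spec

variable {F : Type} [Field F]

/-- The component `y^κ` of `∑ c(e,k) (mon e)^R (mon k)`. -/
noncomputable def VV (m d R n : ℕ) (f : F[X]) (c : ℕ → ℕ → F) (κ : ℕ) : F[X] :=
  ∑ e ∈ Finset.Ico (m * d) R, ∑ k ∈ Finset.Ico (m * d) (n + 1),
    if (R * jj m d e + jj m d k) % d = κ then
      C (c e k) * X ^ (R * ii m d e + ii m d k) * f ^ ((R * jj m d e + jj m d k) / d) else 0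

/-- The component `y^κ` of `∑ g(e,k) (mon e) (mon k)^R`. -/
noncomputable def UU (m d R n : ℕ) (f : F[X]) (g : ℕ → ℕ → F) (κ : ℕ) : F[X] :=
  ∑ e ∈ Finset.Ico (m * d) R, ∑ k ∈ Finset.Ico (m * d) (n + 1),
    if (jj m d e + R * jj m d k) % d = κ then
      C (g e k) * X ^ (ii m d e + R * ii m d k) * f ^ ((jj m d e + R * jj m d k) / d) else 0

end Pool.Agent.P4f18dfK
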