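import Pool.Agent.Lib.P4f18dfK.Defs

/-!
# P4f18dfK.KrS: the coefficients of the logarithmic derivative are the sums over the extensions

The argument of `Pool/Agent/Lib/P07318w/KrKf.lean` with norms instead of traces.
-/

set_option autoImplicit false

open Polynomial

namespace Pool.Agent.P4f18dfK

namespace KrSAux

open IntermediateField

section general

variable {F K : Type*} [Field F] [Field K] [Algebra F K] [FiniteDimensional F K]

omit [FiniteDimensional F K] in
theorem adjoin_sub (b : F) (x : K) : F⟮algebraMap F K b - x⟯ = F⟮x⟯ := by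
  apply le_antisymm
  · rw [adjoin_simple_le_iff]
    exact sub_mem (IntermediateField.algebraMap_mem _ b) (mem_adjoin_simple_self F x)
  · rw [adjoin_simple_le_iff]
    have h := sub_mem (IntermediateField.algebraMap_mem F⟮algebraMap F K b - x⟯ b)
      (mem_adjoin_simple_self F (algebraMap F K b - x))
    rwa [sub_sub_cancel] at h

theorem minpoly_sub_coeff (b : F) (x : K) :
    (minpoly F (algebraMap F K b - x)).coeff 0 =
      (-1) ^ (minpoly F x).natDegree * (minpoly F x).eval b := by
  have h1 : algebraMap F K b - x = -(x - algebraMap F K b) := by ring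
  have h2 : (minpoly F (x - algebraMap F K b)).natDegree = (minpoly F x).natDegree := by
    rw [minpoly.sub_algebraMap, natDegree_comp, natDegree_X_add_C, mul_one]
  rw [h1, minpoly.neg, h2, minpoly.sub_algebraMap, coeff_zero_eq_eval_zero, eval_mul, eval_pow,
    eval_neg, eval_one, eval_comp, eval_comp, eval_neg, eval_X, eval_add, eval_X, eval_C, neg_zero,
    zero_add]

theorem norm_sub (b : F) (x : K) :
    Algebra.norm F (algebraMap F K b - x) =
      (minpoly F x).eval b ^ Module.finrank F⟮x⟯ K := by
  have hint : IsIntegral F x := IsIntegral.of_finite F x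
  have hint' : IsIntegral F (algebraMap F K b - x) := IsIntegral.of_finite F _
  have hdeg : (minpoly F (algebraMap F K b - x)).natDegree = (minpoly F x).natDegree := by
    rw [← IntermediateField.adjoin.finrank hint, ← IntermediateField.adjoin.finrank hint',
      adjoin_sub]
  have h1 := Algebra.PowerBasis.norm_gen_eq_coeff_zero_minpoly
    (IntermediateField.adjoin.powerBasis hint')
  have h2 : (IntermediateField.adjoin.powerBasis hint').gen =
      IntermediateField.AdjoinSimple.gen F (algebraMap F K b - x) := rfl
  have h3 : (IntermediateField.adjoin.powerBasis hint').dim =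
      (minpoly F (algebraMap F K b - x)).natDegree := rfl
  rw [h2, h3, IntermediateField.minpoly_gen, hdeg, minpoly_sub_coeff, ← mul_assoc, ← mul_pow,
    neg_one_mul, neg_neg, one_pow, one_mul] at h1
  rw [Algebra.norm_eq_norm_adjoin, h1, adjoin_sub]

theorem finrank_adjoin_top (x : K) :
    Module.finrank F⟮x⟯ K = Module.finrank F K / (minpoly F x).natDegree := by
  have hint : IsIntegral F x := IsIntegral.of_finite F x
  have h1 := Module.finrank_mul_finrank F F⟮x⟯ K
  rw [IntermediateField.adjoin.finrank hint] at h1
  rw [← h1, Nat.mul_div_cancel_left _ (minpoly.natDegree_pos hint)]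

theorem natDegree_dvd_finrank (x : K) : (minpoly F x).natDegree ∣ Module.finrank F K := by
  have hint : IsIntegral F x := IsIntegral.of_finite F x
  have h1 := Module.finrank_mul_finrank F F⟮x⟯ K
  rw [IntermediateField.adjoin.finrank hint] at h1
  exact ⟨_, h1.symm⟩

end general

theorem card_roots {p : ℕ} [Fact p.Prime] {r : ℕ} (hr : r ≠ 0) {P : (ZMod p)[X]}
    (hirr : Irreducible P) (hmon : P.Monic) (hdeg : P.natDegree ∣ r)
    [Fintype (GaloisField p r)] [DecidableEq (ZMod p)[X]] :
    ((Finset.univ : Finset (GaloisField p r)).filter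
      (fun x : GaloisField p r => minpoly (ZMod p) x = P)).card =
      P.natDegree := by
  classical
  have hdvd : P ∣ X ^ (Nat.card (ZMod p)) ^ r - X :=
    hirr.natDegree_dvd_iff_dvd_X_pow_card_pow_sub_X.1 hdeg
  have hcard : Nat.card (ZMod p) ^ r = Nat.card (GaloisField p r) := by
    rw [GaloisField.card p r hr, Nat.card_zmod]
  rw [hcard] at hdvd
  have hspl : Splits (P.map (algebraMap (ZMod p) (GaloisField p r))) := by
    refine Splits.of_dvd (g := (X ^ Nat.card (GaloisField p r) - X : (GaloisField p r)[X])) ?_ ?_ ?_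
    · exact Polynomial.splits_X_pow_nat_card_sub_X
    · exact FiniteField.X_pow_card_sub_X_ne_zero _ Finite.one_lt_card
    · have := Polynomial.map_dvd (algebraMap (ZMod p) (GaloisField p r)) hdvd
      simpa using this
  have hsep : P.Separable := PerfectField.separable_of_irreducible hirr
  have hroot := card_rootSet_eq_natDegree hsep hspl
  rw [← hroot, ← Fintype.card_coe]
  refine Fintype.card_congr ?_
  refine
    { toFun := fun x => ⟨x.1, ?_⟩
      invFun := fun y => ⟨y.1, ?_⟩
      left_inv := ?_
      right_inv := ?_ }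
  · rw [mem_rootSet]
    refine ⟨hirr.ne_zero, ?_⟩
    have key : ∀ y : GaloisField p r, minpoly (ZMod p) y = P → aeval y P = 0 := by
      intro y hy
      rw [← hy]
      exact minpoly.aeval _ _
    exact key x.1 (Finset.mem_filter.1 x.2).2
  · rw [Finset.mem_filter]
    refine ⟨Finset.mem_univ _, ?_⟩
    have hy := (mem_rootSet.1 y.2).2
    exact (minpoly.eq_of_irreducible_of_monic hirr hy hmon).symm
  · intro x
    rfl
  · intro y
    rfl

end KrSAux

open KrSAux

theorem kr_eq_sf {p r : ℕ} [Fact p.Prime] (b : Fin r → ZMod p) (ψ : Fin r → MulChar (ZMod p) ℂ) {n : ℕ} (hn : 1 ≤ n) :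
    Kr (lamb b ψ) n = SF b ψ n := by
  classical
  have hn0 : n ≠ 0 := by omega
  have hfin : Fintype (GaloisField p n) := Fintype.ofFinite _
  unfold SF Kr
  rw [finsum_eq_sum_of_fintype]
  have hterm : ∀ x : GaloisField p n,
      ∏ i, ψ i (Algebra.norm (ZMod p) (algebraMap (ZMod p) (GaloisField p n) (b i) - x)) =
      lamb b ψ (minpoly (ZMod p) x) ^ (n / (minpoly (ZMod p) x).natDegree) := by
    intro x
    unfold lamb
    rw [← Finset.prod_pow]
    refine Finset.prod_congr rfl fun i _ => ?_
    rw [norm_sub, finrank_adjoin_top, GaloisField.finrank p hn0, map_pow]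
  set T : Finset (ZMod p)[X] := n.divisors.biUnion
    (fun k => (mq p k).filter (fun P => Irreducible P)) with hT
  have hmaps : ∀ x ∈ (Finset.univ : Finset (GaloisField p n)),
      minpoly (ZMod p) x ∈ T := by
    intro x _
    have hint : IsIntegral (ZMod p) x := IsIntegral.of_finite _ _
    rw [hT, Finset.mem_biUnion]
    refine ⟨(minpoly (ZMod p) x).natDegree, ?_, ?_⟩
    · rw [Nat.mem_divisors]
      refine ⟨?_, hn0⟩
      have := natDegree_dvd_finrank (F := ZMod p) x
      rwa [GaloisField.finrank p hn0] at this
    · rw [Finset.mem_filter, mem_mq]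
      exact ⟨⟨minpoly.monic hint, rfl⟩, minpoly.irreducible hint⟩
  rw [← Finset.sum_fiberwise_of_maps_to hmaps]
  rw [hT, Finset.sum_biUnion]
  · refine Finset.sum_congr rfl fun k hk => Finset.sum_congr rfl fun P hP => ?_
    rw [Finset.mem_filter, mem_mq] at hP
    obtain ⟨⟨hmon, hdeg⟩, hirr⟩ := hP
    have hc := card_roots hn0 hirr hmon (by rw [hdeg]; exact Nat.dvd_of_mem_divisors hk)
    have hs : ∀ x ∈ (Finset.univ : Finset (GaloisField p n)).filter
        (fun x : GaloisField p n => minpoly (ZMod p) x = P),
        ∏ i, ψ i (Algebra.norm (ZMod p) (algebraMap (ZMod p) (GaloisField p n) (b i) - x)) =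
          lamb b ψ P ^ (n / k) := by
      intro x hx
      rw [hterm, (Finset.mem_filter.1 hx).2, hdeg]
    rw [Finset.sum_congr rfl hs, Finset.sum_const, hc, hdeg, nsmul_eq_mul]
  · intro a _ b _ hab
    rw [Function.onFun, Finset.disjoint_left]
    intro P hPa hPb
    rw [Finset.mem_filter, mem_mq] at hPa hPb
    exact hab (hPa.1.2.symm.trans hPb.1.2)

end Pool.Agent.P4f18dfK
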