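import Pool.Agent.Lib.P4f18dfK.Defs

/-!
# P4f18dfK.Van: the coefficients of the L-function

PROOF of `ls_ge`: `ψ i0 t ≠ 1` for some unit `t`; `l` the Lagrange basis polynomial (degree `r - 1 < d`), `l(b i0) = 1`, `l(b j) = 0` for `j ≠ i0`. The map
`h ↦ h + C ((t - 1) h(b i0)) l` is a bijection of the monic polynomials of degree `d` (inverse: the same with `t⁻¹`) and multiplies `lamb b ψ h` by `ψ i0 t`.
-/

set_option autoImplicit false

open Polynomial

namespace Pool.Agent.P4f18dfK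

variable {p r : ℕ} [Fact p.Prime] (b : Fin r → ZMod p) (ψ : Fin r → MulChar (ZMod p) ℂ)

theorem ls_zero : Ls (lamb b ψ) 0 = 1 := by
  classical
  have h : mq p 0 = {1} := by
    ext h
    rw [mem_mq, Finset.mem_singleton]
    constructor
    · rintro ⟨h1, h2⟩
      exact h1.natDegree_eq_zero.1 h2
    · rintro rfl
      exact ⟨monic_one, natDegree_one⟩
  unfold Ls
  rw [h, Finset.sum_singleton]
  exact (mulOn_lamb b ψ).1

theorem ls_one : Ls (lamb b ψ) 1 = ∑ x : ZMod p, ∏ i, ψ i (b i - x) := by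
  classical
  unfold Ls
  symm
  refine Finset.sum_bij (fun x _ => X - C x) ?_ ?_ ?_ ?_
  · intro x _
    rw [mem_mq]
    exact ⟨monic_X_sub_C x, natDegree_X_sub_C x⟩
  · intro x _ y _ h
    have h1 : (C x : (ZMod p)[X]) = C y := sub_right_injective h
    exact C_injective h1
  · intro h hh
    rw [mem_mq] at hh
    refine ⟨- h.coeff 0, Finset.mem_univ _, ?_⟩
    have h1 := hh.1.eq_X_add_C hh.2
    rw [map_neg, sub_neg_eq_add]
    exact h1.symm
  · intro x _
    unfold lamb
    refine Finset.prod_congr rfl fun i _ => ?_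
    rw [eval_sub, eval_X, eval_C]

variable {b ψ}

theorem ls_ge (hb : Function.Injective b) {i0 : Fin r} (h : ψ i0 ≠ 1) {d : ℕ} (hd : r ≤ d) :
    Ls (lamb b ψ) d = 0 := by
  classical
  obtain ⟨t, ht⟩ : ∃ t : (ZMod p)ˣ, ψ i0 (t : ZMod p) ≠ 1 := MulChar.ne_one_iff.1 h
  obtain ⟨l, hl1, hl2, hl3⟩ : ∃ l : (ZMod p)[X], l.degree < (d : WithBot ℕ) ∧ l.eval (b i0) = 1 ∧
      ∀ j, j ≠ i0 → l.eval (b j) = 0 := by
    refine ⟨Lagrange.basis Finset.univ b i0, ?_, ?_, ?_⟩
    · rw [Lagrange.degree_basis hb.injOn (Finset.mem_univ i0), Finset.card_univ, Fintype.card_fin]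
      have : 0 < r := i0.pos
      exact_mod_cast (by omega : r - 1 < d)
    · exact Lagrange.eval_basis_self hb.injOn (Finset.mem_univ i0)
    · intro j hj
      exact Lagrange.eval_basis_of_ne hj.symm (Finset.mem_univ j)
  set T : (ZMod p)ˣ → (ZMod p)[X] → (ZMod p)[X] := fun s g =>
    g + C (((s : ZMod p) - 1) * g.eval (b i0)) * l with hT
  have hTe : ∀ (s : (ZMod p)ˣ) (g : (ZMod p)[X]), (T s g).eval (b i0) = s * g.eval (b i0) := by
    intro s g
    rw [hT]
    simp only [eval_add, eval_mul, eval_C, hl2]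
    ring
  have hTj : ∀ (s : (ZMod p)ˣ) (g : (ZMod p)[X]) (j : Fin r), j ≠ i0 →
      (T s g).eval (b j) = g.eval (b j) := by
    intro s g j hj
    rw [hT]
    simp only [eval_add, eval_mul, eval_C, hl3 j hj]
    ring
  have hTm : ∀ (s : (ZMod p)ˣ) (g : (ZMod p)[X]), g ∈ mq p d → T s g ∈ mq p d := by
    intro s g hg
    rw [mem_mq] at hg ⊢
    have h1 : (C (((s : ZMod p) - 1) * g.eval (b i0)) * l).degree < g.degree := by
      rw [degree_eq_natDegree hg.1.ne_zero, hg.2]
      refine lt_of_le_of_lt ?_ hl1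
      refine (degree_mul_le _ _).trans ?_
      calc (C (((s : ZMod p) - 1) * g.eval (b i0))).degree + l.degree ≤ 0 + l.degree :=
            add_le_add_left degree_C_le _
        _ = l.degree := zero_add _
    refine ⟨hg.1.add_of_left h1, ?_⟩
    rw [hT]
    show (g + _).natDegree = d
    rw [natDegree_eq_of_degree_eq (degree_add_eq_left_of_degree_lt h1), hg.2]
  have hTT : ∀ (s : (ZMod p)ˣ) (g : (ZMod p)[X]), T s⁻¹ (T s g) = g := by
    intro s g
    have h1 : T s⁻¹ (T s g) = T s g + C ((((s⁻¹ : (ZMod p)ˣ) : ZMod p) - 1) * (T s g).eval (b i0)) * l := rfl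
    rw [h1, hTe]
    have h2 : (((s⁻¹ : (ZMod p)ˣ) : ZMod p) - 1) * ((s : ZMod p) * g.eval (b i0)) =
        -(((s : ZMod p) - 1) * g.eval (b i0)) := by
      have h3 : ((s⁻¹ : (ZMod p)ˣ) : ZMod p) * (s : ZMod p) = 1 := s.inv_mul
      linear_combination (g.eval (b i0)) * h3
    rw [h2, hT]
    show g + _ + _ = g
    rw [C_neg]
    ring
  have hlam : ∀ g : (ZMod p)[X], lamb b ψ (T t g) = ψ i0 (t : ZMod p) * lamb b ψ g := by
    intro g
    unfold lamb
    rw [← Finset.mul_prod_erase _ _ (Finset.mem_univ i0),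
      ← Finset.mul_prod_erase Finset.univ (fun i => ψ i (g.eval (b i))) (Finset.mem_univ i0), hTe,
      map_mul, mul_assoc]
    congr 2
    refine Finset.prod_congr rfl fun j hj => ?_
    rw [hTj _ _ _ (Finset.ne_of_mem_erase hj)]
  have hsum : Ls (lamb b ψ) d = ψ i0 (t : ZMod p) * Ls (lamb b ψ) d := by
    conv_rhs => unfold Ls
    rw [Finset.mul_sum]
    unfold Ls
    symm
    refine Finset.sum_bij' (fun g _ => T t g) (fun g _ => T t⁻¹ g) (fun g hg => hTm _ _ hg)
      (fun g hg => hTm _ _ hg) (fun g _ => hTT t g) ?_ ?_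
    · intro g _
      have := hTT t⁻¹ g
      rwa [inv_inv] at this
    · intro g _
      exact (hlam g).symm
  have h4 : (1 - ψ i0 (t : ZMod p)) * Ls (lamb b ψ) d = 0 := by
    rw [sub_mul, one_mul, ← hsum, sub_self]
  rcases mul_eq_zero.1 h4 with h5 | h5
  · exact absurd (sub_eq_zero.1 h5).symm ht
  · exact h5

end Pool.Agent.P4f18dfK
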