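import Pool.Agent.Lib.P4f18dfK.New
import Pool.Agent.Lib.P4f18dfK.KrS
import Pool.Agent.Lib.P4f18dfK.Van
import Pool.Agent.Lib.P4f18dfK.Bnd
import Pool.Agent.Lib.P4f18dfK.Ana

/-!
# P4f18dfK.Fin: the bound of Weil, degree coprime to the order
-/

set_option autoImplicit false

open Polynomial

namespace Pool.Agent.P4f18dfK

theorem weil_inf {p r : ℕ} [Fact p.Prime] {b : Fin r → ZMod p} (hb : Function.Injective b)
    {χ : MulChar (ZMod p) ℂ} (hχ : χ ≠ 1) {E : Fin r → ℕ} (hE : ∀ i, 0 < E i)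
    (hc : (∑ i, E i).Coprime (orderOf χ)) :
    ‖∑ x : ZMod p, ∏ i, (χ ^ E i) (b i - x)‖ ≤ ((r : ℝ) - 1) * √(p : ℝ) := by
  have ho : orderOf χ ≠ 1 := fun h => hχ (orderOf_eq_one_iff.1 h)
  obtain ⟨i0, hi0⟩ : ∃ i0, χ ^ E i0 ≠ 1 := by
    by_contra hcon
    push Not at hcon
    have h1 : orderOf χ ∣ ∑ i, E i := Finset.dvd_sum fun i _ => orderOf_dvd_of_pow_eq_one (hcon i)
    exact ho (Nat.dvd_one.1 (by rw [← hc]; exact Nat.dvd_gcd h1 dvd_rfl))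
  have hr1 : 1 ≤ r := i0.pos
  obtain ⟨C, hC, hS⟩ := sf_bound b hχ hE hc
  have hp0 : (0 : ℝ) < p := by exact_mod_cast (Fact.out : p.Prime).pos
  have h := ana (A := Ls (lamb b (fun i => χ ^ E i))) (S := Kr (lamb b (fun i => χ ^ E i))) (r := r)
    (C := C) (ρ := √(p : ℝ)) (Real.sqrt_pos.2 hp0) hr1 (ls_zero b _)
    (fun n hn => ls_ge hb (i0 := i0) hi0 hn) (fun n => newton (mulOn_lamb b _) n) (fun μ hμ => by
      rw [kr_eq_sf b _ (by omega), pow_mul, Real.sq_sqrt hp0.le]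
      exact hS μ hμ)
  rw [ls_one] at h
  exact h

end Pool.Agent.P4f18dfK
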