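import Pool.Agent.Lib.P4f18dfK.Fin

/-!
# P4f18dfK.Mob: Weil's bound for characters of all orders, one exponent coprime to the order

PROOF. Replace `x` by `- x`: `∑_x ∏ (χ ^ e i) (b i - x)`. The term `x = b i0` is `0` (`(χ ^ e i0) 0 = 0`). For `x ≠ b i0` put `z = (b i0 - x)⁻¹ ≠ 0`: `b i - x = z⁻¹ (1 + (b i - b i0) z)`, so the term is
`(χ ^ (-s)) z ∏_{i ≠ i0} (χ ^ e i) (b i - b i0) (χ ^ e i) (z + (b i - b i0)⁻¹)`, `s = ∑ e i`. So the sum is (constant of absolute value `1`) `∑_{z ≠ 0} (χ ^ (-s)) (z) ∏_{i≠i0} (χ ^ e i) (z + c i)`, `c i = (b i - b i0)⁻¹`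
distinct and nonzero. With natural exponents `E ≥ 1` congruent to `-s`, `e i` modulo `orderOf χ` and the points `0`, `- c i`, `r` points in all (`Fin r`: put the point `0` at the index `i0`), this is `weil_inf` (up to the sign
`χ(-1)`): `∑ E ≡ -s + ∑_{i≠i0} e i = - e i0`, coprime to the order. (`(χ ^ E) 0 = 0` also for a trivial character, so `z = 0` may be included.)
-/

set_option autoImplicit false

open Polynomial

namespace Pool.Agent.P4f18dfK

namespace MobAux

theorem exists_nat {n : ℕ} (hn : 0 < n) (e : ℤ) : ∃ N : ℕ, 0 < N ∧ ∃ t : ℤ, (N : ℤ) = e + n * t := by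
  have h1 : 0 < e + n * (|e| + 1) := by
    have h2 := neg_abs_le e
    have h3 : (1 : ℤ) ≤ n := by exact_mod_cast hn
    nlinarith [abs_nonneg e]
  refine ⟨(e + n * (|e| + 1)).toNat, ?_, |e| + 1, ?_⟩
  · omega
  · exact Int.toNat_of_nonneg h1.le

variable {p : ℕ} [Fact p.Prime]

theorem zpow_eq {χ : MulChar (ZMod p) ℂ} {e t : ℤ} {N : ℕ} (h : (N : ℤ) = e + (orderOf χ : ℤ) * t) :
    χ ^ e = χ ^ N := by
  rw [← zpow_natCast χ N, h, zpow_add, zpow_mul, zpow_natCast, pow_orderOf_eq_one, one_zpow, mul_one]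

theorem pow_order {χ : MulChar (ZMod p) ℂ} {z : ZMod p} (hz : z ≠ 0) : χ z ^ orderOf χ = 1 := by
  rw [← MulChar.pow_apply' χ (MulChar.orderOf_pos χ).ne' z, pow_orderOf_eq_one]
  exact MulChar.one_apply (isUnit_iff_ne_zero.2 hz)

end MobAux

theorem weil_mul {p : ℕ} [Fact p.Prime] {χ : MulChar (ZMod p) ℂ} (hχ : χ ≠ 1) {r : ℕ} {b : Fin r → ZMod p}
    (hb : Function.Injective b) (e : Fin r → ℤ) (i0 : Fin r) (he : IsCoprime (e i0) (orderOf χ : ℤ)) :
    ‖∑ x : ZMod p, ∏ i, (χ ^ e i) (x + b i)‖ ≤ (r : ℝ) * √(p : ℝ) := by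
  classical
  have hn : 0 < orderOf χ := MulChar.orderOf_pos χ
  have hn1 : 1 < orderOf χ := by
    rcases Nat.lt_or_ge 1 (orderOf χ) with h | h
    · exact h
    · exact absurd (orderOf_eq_one_iff.1 (le_antisymm h hn)) hχ
  choose N hN0 t hN using fun i => MobAux.exists_nat hn (e i)
  have hχN : ∀ i, χ ^ e i = χ ^ N i := fun i => MobAux.zpow_eq (hN i)
  -- the new exponents and the new points
  obtain ⟨M, hM⟩ : ∃ M : ℕ, M = ∑ i, N i := ⟨_, rfl⟩
  have hM0 : 0 < M := by
    rw [hM]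
    exact Finset.sum_pos (fun i _ => hN0 i) ⟨i0, Finset.mem_univ _⟩
  obtain ⟨n', hn'⟩ : ∃ n' : ℕ, orderOf χ = n' + 1 := ⟨orderOf χ - 1, by omega⟩
  have hn'0 : 0 < n' := by omega
  let E : Fin r → ℕ := fun i => if i = i0 then n' * M else N i
  let c : Fin r → ZMod p := fun i => if i = i0 then 0 else -(b i - b i0)⁻¹
  have hE0 : E i0 = n' * M := if_pos rfl
  have hc0 : c i0 = 0 := if_pos rfl
  have hE1 : ∀ i, i ≠ i0 → E i = N i := fun i hi => if_neg hi
  have hc1 : ∀ i, i ≠ i0 → c i = -(b i - b i0)⁻¹ := fun i hi => if_neg hi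
  have hsub : ∀ i, i ≠ i0 → b i - b i0 ≠ 0 := fun i hi h => hi (hb (sub_eq_zero.1 h))
  have hcinj : Function.Injective c := by
    intro i j hij
    by_cases hi : i = i0
    · by_cases hj : j = i0
      · rw [hi, hj]
      · rw [hi, hc0, hc1 j hj] at hij
        exact absurd (neg_eq_zero.1 hij.symm) (inv_ne_zero (hsub j hj))
    · by_cases hj : j = i0
      · rw [hj, hc0, hc1 i hi] at hij
        exact absurd (neg_eq_zero.1 hij) (inv_ne_zero (hsub i hi))
      · rw [hc1 i hi, hc1 j hj, neg_inj, inv_inj, sub_left_inj] at hij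
        exact hb hij
  have hEpos : ∀ i, 0 < E i := by
    intro i
    by_cases hi : i = i0
    · rw [hi, hE0]
      exact Nat.mul_pos hn'0 hM0
    · rw [hE1 i hi]
      exact hN0 i
  have hsumE : (∑ i, E i) + N i0 = orderOf χ * M := by
    rw [← Finset.add_sum_erase _ _ (Finset.mem_univ i0), hE0, hn', add_mul, one_mul, hM,
      ← Finset.add_sum_erase _ N (Finset.mem_univ i0),
      Finset.sum_congr rfl fun i hi => hE1 i (Finset.ne_of_mem_erase hi)]
    ring
  have hcop : (∑ i, E i).Coprime (orderOf χ) := by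
    rw [← Nat.isCoprime_iff_coprime]
    have h1 : ((∑ i, E i : ℕ) : ℤ) = -e i0 + (orderOf χ : ℤ) * (M - t i0) := by
      have h2 : ((∑ i, E i : ℕ) : ℤ) + (N i0 : ℤ) = (orderOf χ : ℤ) * M := by exact_mod_cast hsumE
      rw [hN i0] at h2
      linear_combination h2
    rw [h1]
    exact IsCoprime.add_mul_left_left he.neg_left _
  have hW := weil_inf hcinj hχ hEpos hcop
  -- comparison of the two sums
  obtain ⟨K, hK⟩ : ∃ K : ℂ, K = (∏ i ∈ Finset.univ.erase i0, (χ ^ N i) (-(b i - b i0))) *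
    (χ ^ E i0) (-1) := ⟨_, rfl⟩
  have hKn : ‖K‖ ≤ 1 := by
    rw [hK, norm_mul, norm_prod]
    exact mul_le_one₀ (Finset.prod_le_one (fun _ _ => norm_nonneg _)
      fun i _ => DirichletCharacter.norm_le_one (χ ^ N i) _) (norm_nonneg _)
      (DirichletCharacter.norm_le_one (χ ^ E i0) _)
  have hterm : ∀ z : ZMod p, ∏ i, (χ ^ e i) (z⁻¹ - b i0 + b i) = K * ∏ i, (χ ^ E i) (c i - z) := by
    intro z
    rcases eq_or_ne z 0 with rfl | hz
    · rw [Finset.prod_eq_zero (Finset.mem_univ i0), Finset.prod_eq_zero (Finset.mem_univ i0),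
        mul_zero]
      · rw [hc0, sub_zero, MulChar.map_zero]
      · rw [inv_zero, zero_sub, neg_add_cancel, MulChar.map_zero]
    · have hzχ : χ z ≠ 0 := fun h => by
        have := MobAux.pow_order (χ := χ) hz
        rw [h, zero_pow hn.ne'] at this
        exact zero_ne_one this
      have hinv : χ z⁻¹ = (χ z)⁻¹ := by
        apply eq_inv_of_mul_eq_one_left
        rw [← map_mul, inv_mul_cancel₀ hz, map_one]
      have hi0 : z⁻¹ - b i0 + b i0 = z⁻¹ := by ring
      have hi1 : ∀ i, i ≠ i0 → z⁻¹ - b i0 + b i = z⁻¹ * (-(b i - b i0)) * (c i - z) := by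
        intro i hi
        have h1 := hsub i hi
        rw [hc1 i hi]
        field_simp
        ring
      have hL : ∏ i, (χ ^ e i) (z⁻¹ - b i0 + b i) = χ z⁻¹ ^ M *
          ((∏ i ∈ Finset.univ.erase i0, (χ ^ N i) (-(b i - b i0))) *
            ∏ i ∈ Finset.univ.erase i0, (χ ^ E i) (c i - z)) := by
        rw [← Finset.mul_prod_erase _ _ (Finset.mem_univ i0), hi0, hχN,
          MulChar.pow_apply' χ (hN0 i0).ne', hM, ← Finset.add_sum_erase _ N (Finset.mem_univ i0),
          pow_add, ← Finset.prod_mul_distrib, mul_assoc]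
        congr 1
        rw [← Finset.prod_pow_eq_pow_sum, ← Finset.prod_mul_distrib]
        apply Finset.prod_congr rfl
        intro i hi
        have hi' := Finset.ne_of_mem_erase hi
        rw [hχN, hi1 i hi', map_mul, map_mul, MulChar.pow_apply' χ (hN0 i).ne' z⁻¹, hE1 i hi',
          mul_assoc]
      have hR : ∏ i, (χ ^ E i) (c i - z) = (χ ^ E i0) (-1) * χ z ^ (n' * M) *
          ∏ i ∈ Finset.univ.erase i0, (χ ^ E i) (c i - z) := by
        rw [← Finset.mul_prod_erase _ _ (Finset.mem_univ i0), hc0, zero_sub, ← neg_one_mul z,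
          map_mul, MulChar.pow_apply' χ (hEpos i0).ne' z, hE0]
      have hsq : (χ ^ E i0) (-1) * (χ ^ E i0) (-1) = 1 := by
        rw [← map_mul, neg_one_mul, neg_neg, map_one]
      have hpow : χ z⁻¹ ^ M = χ z ^ (n' * M) := by
        rw [hinv, inv_pow]
        apply Eq.symm
        apply eq_inv_of_mul_eq_one_left
        rw [← pow_add]
        have h1 : n' * M + M = (n' + 1) * M := by ring
        rw [h1, ← hn', pow_mul, MobAux.pow_order hz, one_pow]
      rw [hL, hR, hpow, hK]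
      linear_combination (-(χ z ^ (n' * M) *
        ((∏ i ∈ Finset.univ.erase i0, (χ ^ N i) (-(b i - b i0))) *
          ∏ i ∈ Finset.univ.erase i0, (χ ^ E i) (c i - z)))) * hsq
  have hsum : ∑ x : ZMod p, ∏ i, (χ ^ e i) (x + b i) =
      K * ∑ z : ZMod p, ∏ i, (χ ^ E i) (c i - z) := by
    rw [Finset.mul_sum, ← Equiv.sum_comp ((Equiv.inv (ZMod p)).trans (Equiv.subRight (b i0)))]
    exact Finset.sum_congr rfl fun z _ => hterm z
  rw [hsum, norm_mul]
  have hp0 : (0 : ℝ) ≤ √(p : ℝ) := Real.sqrt_nonneg _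
  calc ‖K‖ * ‖∑ z : ZMod p, ∏ i, (χ ^ E i) (c i - z)‖
      ≤ 1 * (((r : ℝ) - 1) * √(p : ℝ)) := mul_le_mul hKn hW (norm_nonneg _) zero_le_one
    _ ≤ (r : ℝ) * √(p : ℝ) := by nlinarith

end Pool.Agent.P4f18dfK
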