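import Pool.Agent.Lib.P4f18dfK.Defs

/-!
# P4f18dfK.NZ: the auxiliary function is not zero; its degree

PROOF of `exists_ne`: among the `(e,k)` with `g e k ≠ 0` take the one with `e + R k` maximal (`e < R`, so `e + R k` determines `(e,k)`), `κ = (jj e + R jj k) % d`.
The terms of `UU ... κ` have degree `(e' + R k' - m κ) / d`, distinct; so the coefficient of the largest is not zero.
`deg_le`: `d (ii e + R ii k + m ((jj e + R jj k)/d)) ≤ e + R k`.
-/

set_option autoImplicit false

open Polynomial

namespace Pool.Agent.P4f18dfK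

namespace NZAux

theorem ord_eq {m d R e k : ℕ} (hd : 0 < d) (hmd : m.Coprime d) (he : m * d ≤ e) (hk : m * d ≤ k) :
    d * (ii m d e + R * ii m d k + m * ((jj m d e + R * jj m d k) / d)) +
      m * ((jj m d e + R * jj m d k) % d) = e + R * k := by
  have h1 := (ij_spec hd hmd he).2
  have h2 := (ij_spec hd hmd hk).2
  have h3 := Nat.div_add_mod (jj m d e + R * jj m d k) d
  calc d * (ii m d e + R * ii m d k + m * ((jj m d e + R * jj m d k) / d)) +
      m * ((jj m d e + R * jj m d k) % d)
      = d * ii m d e + R * (d * ii m d k) + m * (d * ((jj m d e + R * jj m d k) / d) +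
        (jj m d e + R * jj m d k) % d) := by ring
    _ = (d * ii m d e + m * jj m d e) + R * (d * ii m d k + m * jj m d k) := by rw [h3]; ring
    _ = e + R * k := by rw [h1, h2]

variable {F : Type} [Field F]

theorem term_natDegree {m : ℕ} {f : F[X]} (hf : f.natDegree = m) (hf0 : f ≠ 0) {c : F} (hc : c ≠ 0) (a b : ℕ) :
    (C c * X ^ a * f ^ b).natDegree = a + m * b := by
  have h1 : (C c * X ^ a : F[X]) ≠ 0 := mul_ne_zero (C_ne_zero.2 hc) (pow_ne_zero _ X_ne_zero)
  rw [natDegree_mul h1 (pow_ne_zero _ hf0), natDegree_C_mul_X_pow _ _ hc, natDegree_pow, hf, mul_comm b m]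

theorem term_ne {f : F[X]} (hf0 : f ≠ 0) {c : F} (hc : c ≠ 0) (a b : ℕ) :
    (C c * X ^ a * f ^ b) ≠ 0 :=
  mul_ne_zero (mul_ne_zero (C_ne_zero.2 hc) (pow_ne_zero _ X_ne_zero)) (pow_ne_zero _ hf0)

end NZAux

open NZAux

theorem exists_ne {F : Type} [Field F] {m d R n : ℕ} (hd : 0 < d) (hmd : m.Coprime d) {f : F[X]}
    (hf : f.natDegree = m) (hf0 : f ≠ 0) {g : ℕ → ℕ → F}
    (hg : ∃ e ∈ Finset.Ico (m * d) R, ∃ k ∈ Finset.Ico (m * d) (n + 1), g e k ≠ 0) :
    ∃ κ < d, UU m d R n f g κ ≠ 0 := by
  classical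
  set S := (Finset.Ico (m * d) R ×ˢ Finset.Ico (m * d) (n + 1)).filter (fun x => g x.1 x.2 ≠ 0) with hS
  have hSne : S.Nonempty := by
    obtain ⟨e, he, k, hk, h⟩ := hg
    exact ⟨(e, k), by rw [hS, Finset.mem_filter, Finset.mem_product]; exact ⟨⟨he, hk⟩, h⟩⟩
  obtain ⟨⟨e0, k0⟩, h0S, hmax⟩ := Finset.exists_max_image S (fun x => x.1 + R * x.2) hSne
  rw [hS, Finset.mem_filter, Finset.mem_product] at h0S
  obtain ⟨⟨he0, hk0⟩, hg0⟩ := h0S
  have he0' := Finset.mem_Ico.1 he0
  have hk0' := Finset.mem_Ico.1 hk0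
  simp only at he0 hk0 hg0 he0' hk0'
  refine ⟨(jj m d e0 + R * jj m d k0) % d, Nat.mod_lt _ hd, ?_⟩
  set κ := (jj m d e0 + R * jj m d k0) % d with hκ
  set D0 := ii m d e0 + R * ii m d k0 + m * ((jj m d e0 + R * jj m d k0) / d) with hD0
  have hord0 := ord_eq (R := R) hd hmd he0'.1 hk0'.1
  rw [← hκ, ← hD0] at hord0
  intro hU
  have hcoef : (UU m d R n f g κ).coeff D0 =
      (C (g e0 k0) * X ^ (ii m d e0 + R * ii m d k0) * f ^ ((jj m d e0 + R * jj m d k0) / d)).coeff D0 := by
    unfold UU
    rw [← Finset.sum_product' (s := Finset.Ico (m * d) R) (t := Finset.Ico (m * d) (n + 1))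
      (f := fun e k => if (jj m d e + R * jj m d k) % d = κ then
        C (g e k) * X ^ (ii m d e + R * ii m d k) * f ^ ((jj m d e + R * jj m d k) / d) else 0),
      Polynomial.finsetSum_coeff]
    rw [Finset.sum_eq_single_of_mem (e0, k0) (Finset.mem_product.2 ⟨he0, hk0⟩)]
    · rw [if_pos rfl]
    · rintro ⟨e, k⟩ hek hne
      rw [Finset.mem_product] at hek
      have he' := Finset.mem_Ico.1 hek.1
      have hk' := Finset.mem_Ico.1 hek.2
      simp only at he' hk' ⊢
      split_ifs with h1
      · by_cases h2 : g e k = 0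
        · rw [h2, C_0, zero_mul, zero_mul, coeff_zero]
        · apply coeff_eq_zero_of_natDegree_lt
          rw [term_natDegree hf hf0 h2]
          have h3 := hmax (e, k) (by
            rw [hS, Finset.mem_filter, Finset.mem_product]
            exact ⟨hek, h2⟩)
          simp only at h3
          have h4 : e + R * k ≠ e0 + R * k0 := by
            intro h
            apply hne
            have h5 : (e + R * k) % R = (e0 + R * k0) % R := by rw [h]
            rw [Nat.add_mul_mod_self_left, Nat.add_mul_mod_self_left, Nat.mod_eq_of_lt he'.2,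
              Nat.mod_eq_of_lt he0'.2] at h5
            subst h5
            have h6 : R * k = R * k0 := by omega
            have h7 := Nat.eq_of_mul_eq_mul_left (by omega : 0 < R) h6
            rw [h7]
          have h8 := ord_eq (R := R) hd hmd he'.1 hk'.1
          rw [h1] at h8
          have h9 : d * (ii m d e + R * ii m d k + m * ((jj m d e + R * jj m d k) / d)) < d * D0 := by
            omega
          exact Nat.lt_of_mul_lt_mul_left h9
      · exact coeff_zero _
  rw [hU, coeff_zero] at hcoef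
  have h10 := term_natDegree hf hf0 hg0 (ii m d e0 + R * ii m d k0) ((jj m d e0 + R * jj m d k0) / d)
  rw [← hD0] at h10
  have h11 := leadingCoeff_ne_zero.2 (term_ne hf0 hg0 (ii m d e0 + R * ii m d k0)
    ((jj m d e0 + R * jj m d k0) / d))
  rw [leadingCoeff, h10] at h11
  exact h11 hcoef.symm

theorem deg_le {F : Type} [Field F] {m d R n : ℕ} (hd : 0 < d) (hmd : m.Coprime d) {f : F[X]}
    (hf : f.natDegree ≤ m) (g : ℕ → ℕ → F) (κ : ℕ) :
    d * (UU m d R n f g κ).natDegree ≤ R + R * n := by
  have h1 : (UU m d R n f g κ).natDegree ≤ (R + R * n) / d := by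
    unfold UU
    apply Polynomial.natDegree_sum_le_of_forall_le
    intro e he
    apply Polynomial.natDegree_sum_le_of_forall_le
    intro k hk
    rw [Finset.mem_Ico] at he hk
    split_ifs with h2
    · have h3 : (C (g e k) * X ^ (ii m d e + R * ii m d k) * f ^ ((jj m d e + R * jj m d k) / d)).natDegree ≤
          ii m d e + R * ii m d k + m * ((jj m d e + R * jj m d k) / d) := by
        refine natDegree_mul_le.trans (add_le_add (natDegree_C_mul_X_pow_le _ _) ?_)
        refine natDegree_pow_le.trans ?_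
        rw [mul_comm]
        exact Nat.mul_le_mul_right _ hf
      refine h3.trans ?_
      rw [Nat.le_div_iff_mul_le hd, mul_comm]
      have h4 := ord_eq (R := R) hd hmd he.1 hk.1
      have h5 : R * k ≤ R * n := Nat.mul_le_mul_left _ (by omega)
      omega
    · rw [natDegree_zero]
      exact Nat.zero_le _
  calc d * (UU m d R n f g κ).natDegree ≤ d * ((R + R * n) / d) := Nat.mul_le_mul_left _ h1
    _ ≤ R + R * n := Nat.mul_div_le _ _

end Pool.Agent.P4f18dfK
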