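import Pool.Agent.Lib.P4f18dfK.Defs

/-!
# P4f18dfK.New: Newton's identities (the logarithmic derivative of the Euler product)

The same argument as in `Pool/Agent/Lib/P07318w/Newton.lean`, for any `lam` with `MulOn lam` and all monic polynomials.
-/

set_option autoImplicit false

open Polynomial

namespace Pool.Agent.P4f18dfK

namespace NewAux

variable {p : ℕ} [Fact p.Prime]

theorem lam_pow {lam : (ZMod p)[X] → ℂ} (hl : MulOn lam) {P : (ZMod p)[X]} (hP : P.Monic) (j : ℕ) :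
    lam (P ^ j) = lam P ^ j := by
  induction j with
  | zero => rw [pow_zero, pow_zero, hl.1]
  | succ j ih => rw [pow_succ, hl.2 _ _ (hP.pow j) hP, ih, pow_succ]

open Classical in
theorem sum_mult {lam : (ZMod p)[X] → ℂ} (hl : MulOn lam) {n j d : ℕ} {P : (ZMod p)[X]} (hP : P ∈ mq p n)
    (hj : n * j ≤ d) :
    ∑ h ∈ (mq p d).filter (fun h => P ^ j ∣ h), lam h =
      lam P ^ j * Ls lam (d - n * j) := by
  obtain ⟨hm, hn⟩ := mem_mq.mp hP
  unfold Ls
  rw [Finset.mul_sum]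
  symm
  apply Finset.sum_bij (fun h' _ => P ^ j * h')
  · intro h' hh
    obtain ⟨hm', hn'⟩ := mem_mq.mp hh
    rw [Finset.mem_filter, mem_mq]
    refine ⟨⟨(hm.pow j).mul hm', ?_⟩, Dvd.intro _ rfl⟩
    rw [(hm.pow j).natDegree_mul hm', hm.natDegree_pow, hn, hn']
    rw [mul_comm j n]
    omega
  · intro a _ b _ hab
    exact mul_left_cancel₀ (hm.pow j).ne_zero hab
  · intro h hh
    rw [Finset.mem_filter, mem_mq] at hh
    obtain ⟨⟨hm', hn'⟩, ⟨g, hg⟩⟩ := hh
    rw [hg] at hm' hn'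
    have hgm : g.Monic := (hm.pow j).of_mul_monic_left hm'
    refine ⟨g, ?_, hg.symm⟩
    rw [mem_mq]
    refine ⟨hgm, ?_⟩
    rw [(hm.pow j).natDegree_mul hgm, hm.natDegree_pow, hn, mul_comm j n] at hn'
    omega
  · intro h' hh
    obtain ⟨hm', hn'⟩ := mem_mq.mp hh
    rw [hl.2 _ _ (hm.pow j) hm', lam_pow hl hm]

open Classical in
theorem filter_empty {n j d : ℕ} {P : (ZMod p)[X]} (hP : P ∈ mq p n) (hj : d < n * j) :
    (mq p d).filter (fun h => P ^ j ∣ h) = ∅ := by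
  obtain ⟨hm, hn⟩ := mem_mq.mp hP
  rw [Finset.filter_eq_empty_iff]
  intro h hh hdvd
  obtain ⟨hm', hn'⟩ := mem_mq.mp hh
  have h1 := natDegree_le_of_dvd hdvd hm'.ne_zero
  rw [hm.natDegree_pow, hn, hn', mul_comm j n] at h1
  omega

open Classical in
theorem count_eq {h P : (ZMod p)[X]} (hh : h ≠ 0) (hP : Irreducible P) (hPm : P.Monic) {d : ℕ}
    (hd : h.natDegree = d) :
    ((Finset.Icc 1 d).filter (fun j => P ^ j ∣ h)).card =
      (UniqueFactorizationMonoid.normalizedFactors h).count P := by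
  have h1 := UniqueFactorizationMonoid.emultiplicity_eq_count_normalizedFactors hP hh
  rw [hPm.normalize_eq_self] at h1
  obtain ⟨c, hc⟩ : ∃ c : ℕ, c = (UniqueFactorizationMonoid.normalizedFactors h).count P := ⟨_, rfl⟩
  rw [← hc] at h1 ⊢
  have h2 : ∀ j : ℕ, P ^ j ∣ h ↔ j ≤ c := by
    intro j
    rw [pow_dvd_iff_le_emultiplicity, h1]
    exact Nat.cast_le
  have hP1 : 1 ≤ P.natDegree := by
    have := hP.natDegree_pos
    exact this
  have h3 : c ≤ d := by
    have h4 := natDegree_le_of_dvd ((h2 c).mpr le_rfl) hh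
    rw [hPm.natDegree_pow, hd] at h4
    nlinarith
  have h5 : (Finset.Icc 1 d).filter (fun j => P ^ j ∣ h) = Finset.Icc 1 c := by
    ext j
    rw [Finset.mem_filter, Finset.mem_Icc, Finset.mem_Icc, h2]
    omega
  rw [h5, Nat.card_Icc, Nat.add_sub_cancel]

open Classical in
theorem deg_eq {d : ℕ} {h : (ZMod p)[X]} (hh : h ∈ mq p d) :
    d = ∑ n ∈ Finset.Icc 1 d, ∑ P ∈ (mq p n).filter (fun P => Irreducible P),
      n * ((Finset.Icc 1 d).filter (fun j => P ^ j ∣ h)).card := by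
  obtain ⟨hm, hn⟩ := mem_mq.mp hh
  obtain ⟨M, hM⟩ : ∃ M : Multiset (ZMod p)[X],
    M = UniqueFactorizationMonoid.normalizedFactors h := ⟨_, rfl⟩
  have hirr : ∀ P ∈ M, Irreducible P := fun P hP =>
    UniqueFactorizationMonoid.irreducible_of_normalized_factor P (hM ▸ hP)
  have hmon : ∀ P ∈ M, P.Monic := by
    intro P hP
    have h1 := UniqueFactorizationMonoid.normalize_normalized_factor P (hM ▸ hP)
    rw [← h1]
    exact Polynomial.monic_normalize (hirr P hP).ne_zero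
  have hdvd : ∀ P ∈ M, P ∣ h := fun P hP =>
    UniqueFactorizationMonoid.dvd_of_mem_normalizedFactors (hM ▸ hP)
  have hprod : M.prod = h := by
    have h1 := UniqueFactorizationMonoid.prod_normalizedFactors hm.ne_zero
    rw [← hM] at h1
    exact Polynomial.eq_of_monic_of_associated (monic_multiset_prod_of_monic M id (by
      intro P hP
      exact hmon P hP) |> fun h2 => by simpa using h2) hm h1
  have hdeg : d = ∑ P ∈ M.toFinset, M.count P * P.natDegree := by
    rw [← hn]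
    conv_lhs => rw [← hprod]
    rw [natDegree_multiset_prod_of_monic M hmon, Finset.sum_multiset_map_count]
    simp only [smul_eq_mul]
  have hmaps : ∀ P ∈ M.toFinset, P.natDegree ∈ Finset.Icc 1 d := by
    intro P hP
    rw [Multiset.mem_toFinset] at hP
    rw [Finset.mem_Icc]
    refine ⟨(hirr P hP).natDegree_pos, ?_⟩
    rw [← hn]
    exact natDegree_le_of_dvd (hdvd P hP) hm.ne_zero
  rw [← Finset.sum_fiberwise_of_maps_to hmaps] at hdeg
  conv_lhs => rw [hdeg]
  refine Finset.sum_congr rfl fun n hn1 => ?_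
  apply Finset.sum_subset_zero_on_sdiff
  · intro P hP
    rw [Finset.mem_filter, Multiset.mem_toFinset] at hP
    obtain ⟨hP1, hP2⟩ := hP
    rw [Finset.mem_filter, mem_mq]
    exact ⟨⟨hmon P hP1, hP2⟩, hirr P hP1⟩
  · intro P hP
    rw [Finset.mem_sdiff, Finset.mem_filter, Finset.mem_filter, mem_mq, Multiset.mem_toFinset] at hP
    obtain ⟨⟨⟨hP1, hP2⟩, hP4⟩, hP5⟩ := hP
    rw [count_eq hm.ne_zero hP4 hP1 hn, ← hM]
    have : P ∉ M := fun h6 => hP5 ⟨h6, hP2⟩
    rw [Multiset.count_eq_zero_of_notMem this, mul_zero]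
  · intro P hP
    rw [Finset.mem_filter, Multiset.mem_toFinset] at hP
    obtain ⟨hP1, hP2⟩ := hP
    rw [count_eq hm.ne_zero (hirr P hP1) (hmon P hP1) hn, ← hM, hP2, mul_comm]

theorem sum_div {d : ℕ} (G : ℕ → ℕ → ℂ) (hG : ∀ n j, d < n * j → G n j = 0) :
    ∑ r ∈ Finset.Icc 1 d, ∑ n ∈ r.divisors, G n (r / n) =
      ∑ n ∈ Finset.Icc 1 d, ∑ j ∈ Finset.Icc 1 d, G n j := by
  rw [← Finset.sum_product' (s := Finset.Icc 1 d) (t := Finset.Icc 1 d) (f := G)]
  have h1 : ∑ x ∈ Finset.Icc 1 d ×ˢ Finset.Icc 1 d, G x.1 x.2 =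
      ∑ x ∈ (Finset.Icc 1 d ×ˢ Finset.Icc 1 d).filter (fun x => x.1 * x.2 ≤ d), G x.1 x.2 := by
    symm
    apply Finset.sum_filter_of_ne
    intro x _ hx
    by_contra hcon
    push Not at hcon
    exact hx (hG _ _ hcon)
  have hmaps : ∀ x ∈ (Finset.Icc 1 d ×ˢ Finset.Icc 1 d).filter (fun x : ℕ × ℕ => x.1 * x.2 ≤ d),
      x.1 * x.2 ∈ Finset.Icc 1 d := by
    intro x hx
    rw [Finset.mem_filter, Finset.mem_product, Finset.mem_Icc, Finset.mem_Icc] at hx
    rw [Finset.mem_Icc]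
    exact ⟨Nat.mul_pos hx.1.1.1 hx.1.2.1, hx.2⟩
  rw [h1, ← Finset.sum_fiberwise_of_maps_to hmaps]
  refine Finset.sum_congr rfl fun r hr => ?_
  rw [Finset.mem_Icc] at hr
  apply Finset.sum_bij (fun n _ => (n, r / n))
  · intro n hn
    rw [Nat.mem_divisors] at hn
    obtain ⟨⟨k, hk⟩, hr0⟩ := hn
    have hn0 : 0 < n := by
      rcases Nat.eq_zero_or_pos n with h2 | h2
      · rw [h2, zero_mul] at hk
        exact absurd hk hr0
      · exact h2
    have hk0 : 0 < k := by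
      rcases Nat.eq_zero_or_pos k with h2 | h2
      · rw [h2, mul_zero] at hk
        exact absurd hk hr0
      · exact h2
    have hdiv : r / n = k := by rw [hk, Nat.mul_div_cancel_left _ hn0]
    rw [hdiv, Finset.mem_filter, Finset.mem_filter, Finset.mem_product, Finset.mem_Icc,
      Finset.mem_Icc]
    have h3 : n ≤ r := by rw [hk]; exact Nat.le_mul_of_pos_right _ hk0
    have h4 : k ≤ r := by rw [hk]; exact Nat.le_mul_of_pos_left _ hn0
    refine ⟨⟨⟨⟨hn0, by omega⟩, ⟨hk0, by omega⟩⟩, ?_⟩, ?_⟩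
    · show n * k ≤ d
      omega
    · show n * k = r
      omega
  · intro a _ b _ hab
    exact (Prod.mk.inj hab).1
  · intro x hx
    rw [Finset.mem_filter, Finset.mem_filter, Finset.mem_product, Finset.mem_Icc,
      Finset.mem_Icc] at hx
    obtain ⟨⟨⟨⟨h2, h3⟩, h4, h5⟩, h6⟩, h7⟩ := hx
    refine ⟨x.1, ?_, ?_⟩
    · rw [Nat.mem_divisors]
      exact ⟨⟨x.2, h7.symm⟩, by omega⟩
    · show (x.1, r / x.1) = x
      rw [← h7, Nat.mul_div_cancel_left _ (by omega)]
  · intro n _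
    rfl

end NewAux

open NewAux

theorem newton {p : ℕ} [Fact p.Prime] {lam : (ZMod p)[X] → ℂ} (hl : MulOn lam) (d : ℕ) :
    (d : ℂ) * Ls lam d = ∑ r ∈ Finset.Icc 1 d, Kr lam r * Ls lam (d - r) := by
  classical
  obtain ⟨G, hG⟩ : ∃ G : ℕ → ℕ → ℂ, G = fun n j =>
    ∑ P ∈ (mq p n).filter (fun P => Irreducible P), (n : ℂ) *
      ∑ h ∈ (mq p d).filter (fun h => P ^ j ∣ h), lam h := ⟨_, rfl⟩
  have hG0 : ∀ n j, d < n * j → G n j = 0 := by
    intro n j hj
    rw [hG]
    refine Finset.sum_eq_zero fun P hP => ?_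
    rw [filter_empty (Finset.mem_filter.mp hP).1 hj, Finset.sum_empty, mul_zero]
  have hR : ∑ r ∈ Finset.Icc 1 d, Kr lam r * Ls lam (d - r) =
      ∑ r ∈ Finset.Icc 1 d, ∑ n ∈ r.divisors, G n (r / n) := by
    refine Finset.sum_congr rfl fun r hr => ?_
    rw [Finset.mem_Icc] at hr
    unfold Kr
    rw [Finset.sum_mul]
    refine Finset.sum_congr rfl fun n hn => ?_
    rw [Nat.mem_divisors] at hn
    have h1 : n * (r / n) = r := Nat.mul_div_cancel' hn.1
    rw [hG, Finset.sum_mul]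
    refine Finset.sum_congr rfl fun P hP => ?_
    rw [sum_mult hl (Finset.mem_filter.mp hP).1 (by omega), h1]
    ring
  rw [hR, sum_div G hG0]
  have hL : (d : ℂ) * Ls lam d = ∑ h ∈ mq p d, ∑ n ∈ Finset.Icc 1 d,
      ∑ P ∈ (mq p n).filter (fun P => Irreducible P), ∑ j ∈ Finset.Icc 1 d,
        if P ^ j ∣ h then (n : ℂ) * lam h else 0 := by
    unfold Ls
    rw [Finset.mul_sum]
    refine Finset.sum_congr rfl fun h hh => ?_
    have h1 := deg_eq hh
    have h2 : (d : ℂ) = ∑ n ∈ Finset.Icc 1 d, ∑ P ∈ (mq p n).filter (fun P => Irreducible P),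
        (n : ℂ) * (((Finset.Icc 1 d).filter (fun j => P ^ j ∣ h)).card : ℂ) := by
      exact_mod_cast h1
    conv_lhs => rw [h2]
    rw [Finset.sum_mul]
    refine Finset.sum_congr rfl fun n _ => ?_
    rw [Finset.sum_mul]
    refine Finset.sum_congr rfl fun P _ => ?_
    rw [← Finset.sum_filter, Finset.sum_const, nsmul_eq_mul]
    ring
  rw [hL, Finset.sum_comm]
  refine Finset.sum_congr rfl fun n _ => ?_
  rw [hG]
  show _ = ∑ j ∈ Finset.Icc 1 d, ∑ P ∈ (mq p n).filter (fun P => Irreducible P), (n : ℂ) *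
      ∑ h ∈ (mq p d).filter (fun h => P ^ j ∣ h), lam h
  rw [Finset.sum_comm]
  conv_rhs => rw [Finset.sum_comm]
  refine Finset.sum_congr rfl fun P _ => ?_
  rw [Finset.sum_comm]
  refine Finset.sum_congr rfl fun j _ => ?_
  rw [Finset.mul_sum, Finset.sum_filter]

end Pool.Agent.P4f18dfK
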