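import Pool.Agent.Lib.P4f18dfK.Defs

/-!
# P4f18dfK.Pt: the auxiliary function vanishes at the good points

PROOF. Let `R = p^μ`, `Q = R^2 = card F`, `a = f(x)`, `Q - 1 = d N`, `a^N = 1`. For `y ∈ F` with `y^d = a`
`P(y) = ∑_{κ<d} UU(κ)(x) y^κ = ∑_{e,k} g(e,k) x^(ii e + R ii k) y^(jj e + R jj k)` (as `f(x)^(M/d) y^(M % d) = y^M`); its `R`-th power is (additivity of `z ↦ z^R`, `x^Q = x`, `y^Q = y`)
`∑_{e,k} c(e,k) x^(R ii e + ii k) y^(R jj e + jj k) = ∑_{κ<d} VV(κ)(x) y^κ = 0`. Put `H(Y) = ∑_{i<N} Y^(d i) a^(N-1-i)`, so `H(Y) (Y^d - a) = Y^(Q-1) - 1`: every `y ≠ 0` in `F` is a zero of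
`H` or satisfies `y^d = a`, so it is a zero of `H P`, of degree at most `d (N - 1) + d - 1 < Q - 1`. So `H P = 0`, `P = 0`.
-/

set_option autoImplicit false

open Polynomial

namespace Pool.Agent.P4f18dfK

namespace PtAux

theorem comb {F : Type} [Field F] {d : ℕ} (hd : 0 < d) {f : F[X]} {x y : F} (hy : y ^ d = f.eval x)
    (S T : Finset ℕ) (w : ℕ → ℕ → F) (A B : ℕ → ℕ → ℕ) :
    ∑ κ ∈ Finset.range d, (∑ e ∈ S, ∑ k ∈ T,
      if B e k % d = κ then C (w e k) * X ^ (A e k) * f ^ (B e k / d) else 0).eval x * y ^ κ =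
      ∑ e ∈ S, ∑ k ∈ T, w e k * x ^ (A e k) * y ^ (B e k) := by
  have h1 : ∀ κ ∈ Finset.range d, (∑ e ∈ S, ∑ k ∈ T,
      if B e k % d = κ then C (w e k) * X ^ (A e k) * f ^ (B e k / d) else 0).eval x * y ^ κ =
      ∑ e ∈ S, ∑ k ∈ T, if B e k % d = κ then w e k * x ^ (A e k) * y ^ (B e k) else 0 := by
    intro κ _
    rw [eval_finsetSum, Finset.sum_mul]
    refine Finset.sum_congr rfl fun e _ => ?_
    rw [eval_finsetSum, Finset.sum_mul]
    refine Finset.sum_congr rfl fun k _ => ?_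
    split_ifs with h
    · rw [eval_mul, eval_mul, eval_C, eval_pow, eval_X, eval_pow, ← hy, ← pow_mul, mul_assoc _ (y ^ _),
        ← pow_add, ← h, Nat.div_add_mod]
    · rw [eval_zero, zero_mul]
  rw [Finset.sum_congr rfl h1, Finset.sum_comm]
  refine Finset.sum_congr rfl fun e _ => ?_
  rw [Finset.sum_comm]
  refine Finset.sum_congr rfl fun k _ => ?_
  rw [Finset.sum_ite_eq, if_pos (Finset.mem_range.2 (Nat.mod_lt _ hd))]

/-- A polynomial of degree `< d` which vanishes at all the solutions of `y^d = a` is zero. -/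
theorem poly_zero {F : Type} [Field F] [Fintype F] {d : ℕ} (hd : 0 < d)
    (hdF : d ∣ Fintype.card F - 1) {a : F} (ha : a ^ ((Fintype.card F - 1) / d) = 1) {P : F[X]}
    (hP : P.natDegree < d) (h : ∀ y : F, y ^ d = a → P.eval y = 0) : P = 0 := by
  classical
  obtain ⟨N, hN⟩ := hdF
  have hQ : 1 < Fintype.card F := Fintype.one_lt_card
  have hN0 : 0 < N := by
    rcases Nat.eq_zero_or_pos N with h0 | h0
    · rw [h0, mul_zero] at hN
      omega
    · exact h0
  rw [hN, Nat.mul_div_cancel_left _ hd] at ha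
  set H : F[X] := ∑ i ∈ Finset.range N, (X ^ d) ^ i * (C a) ^ (N - 1 - i) with hH
  have h1 : H * (X ^ d - C a) = X ^ (d * N) - 1 := by
    rw [hH, geom_sum₂_mul, ← C_pow, ha, C_1, pow_mul]
  have h2 : H ≠ 0 := by
    rintro h0
    rw [h0, zero_mul] at h1
    have h3 : (X ^ (d * N) - 1 : F[X]) ≠ 0 := by
      have h4 : 0 < d * N := Nat.mul_pos hd hN0
      have := X_pow_sub_C_ne_zero h4 (1 : F)
      rwa [C_1] at this
    exact h3 h1.symm
  have h3 : H.natDegree ≤ d * (N - 1) := by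
    rw [hH]
    refine natDegree_sum_le_of_forall_le _ _ fun i hi => ?_
    rw [Finset.mem_range] at hi
    refine natDegree_mul_le.trans ?_
    rw [← C_pow, natDegree_C, add_zero, ← pow_mul]
    refine (natDegree_X_pow_le _).trans (Nat.mul_le_mul_left _ (by omega))
  have h4 : H * P = 0 := by
    refine eq_zero_of_natDegree_lt_card_of_eval_eq_zero' (H * P) (Finset.univ.erase (0 : F)) (fun y hy => ?_) ?_
    · have hy0 : y ≠ 0 := Finset.ne_of_mem_erase hy
      rw [eval_mul]
      have h5 := congrArg (eval y) h1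
      rw [eval_mul, eval_sub, eval_sub, eval_pow, eval_pow, eval_X, eval_C, eval_one, ← hN,
        FiniteField.pow_card_sub_one_eq_one y hy0, sub_self] at h5
      rcases mul_eq_zero.1 h5 with h6 | h6
      · rw [h6, zero_mul]
      · rw [h y (sub_eq_zero.1 h6), mul_zero]
    · rw [Finset.card_erase_of_mem (Finset.mem_univ _), Finset.card_univ, hN]
      refine lt_of_le_of_lt natDegree_mul_le ?_
      have h5 : d * N = d * (N - 1) + d := by
        rw [← Nat.mul_succ]
        congr 1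
        omega
      omega
  exact (mul_eq_zero.1 h4).resolve_left h2

end PtAux

open PtAux in
theorem pt {F : Type} [Field F] [Fintype F] {p μ : ℕ} [Fact p.Prime] [CharP F p] {m d n : ℕ} (hd : 0 < d)
    (hF : Fintype.card F = (p ^ μ) ^ 2) (hdF : d ∣ Fintype.card F - 1) {f : F[X]} {c g : ℕ → ℕ → F}
    (hcg : ∀ e k, g e k ^ p ^ μ = c e k) (hV : ∀ κ, VV m d (p ^ μ) n f c κ = 0) {x : F}
    (hx : f.eval x ≠ 0) (hx1 : f.eval x ^ ((Fintype.card F - 1) / d) = 1) {κ : ℕ} (hκ : κ < d) :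
    (UU m d (p ^ μ) n f g κ).eval x = 0 := by
  classical
  set R := p ^ μ with hR
  have hQ : ∀ z : F, z ^ (R * R) = z := by
    intro z
    rw [← pow_two, ← hF, FiniteField.pow_card]
  set P : F[X] := ∑ κ ∈ Finset.range d, C ((UU m d R n f g κ).eval x) * X ^ κ with hP
  have hPd : P.natDegree < d := by
    have h1 : P.natDegree ≤ d - 1 := by
      rw [hP]
      refine natDegree_sum_le_of_forall_le _ _ fun i hi => ?_
      rw [Finset.mem_range] at hi
      exact (natDegree_C_mul_X_pow_le _ _).trans (by omega)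
    omega
  have hP0 : P = 0 := by
    refine poly_zero hd hdF hx1 hPd fun y hy => ?_
    have h1 : P.eval y = ∑ e ∈ Finset.Ico (m * d) R, ∑ k ∈ Finset.Ico (m * d) (n + 1),
        g e k * x ^ (ii m d e + R * ii m d k) * y ^ (jj m d e + R * jj m d k) := by
      rw [hP, eval_finsetSum, ← comb hd hy]
      refine Finset.sum_congr rfl fun κ _ => ?_
      rw [eval_mul, eval_C, eval_pow, eval_X]
      rfl
    have h2 : (P.eval y) ^ R = ∑ κ ∈ Finset.range d, (VV m d R n f c κ).eval x * y ^ κ := by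
      have h3 : ∑ κ ∈ Finset.range d, (VV m d R n f c κ).eval x * y ^ κ =
          ∑ e ∈ Finset.Ico (m * d) R, ∑ k ∈ Finset.Ico (m * d) (n + 1),
            c e k * x ^ (R * ii m d e + ii m d k) * y ^ (R * jj m d e + jj m d k) := by
        rw [← comb hd hy]
        rfl
      rw [h3, h1, hR, sum_pow_char_pow]
      refine Finset.sum_congr rfl fun e _ => ?_
      rw [sum_pow_char_pow]
      refine Finset.sum_congr rfl fun k _ => ?_
      rw [← hR, mul_pow, mul_pow, hcg]
      have e1 : ∀ (z : F) (u v : ℕ), (z ^ (u + R * v)) ^ R = z ^ (R * u + v) := by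
        intro z u v
        rw [← pow_mul, add_mul, pow_add, pow_add, mul_comm u R, mul_comm R v, mul_assoc, mul_comm v (R * R),
          pow_mul z (R * R) v, hQ]
      rw [e1, e1]
    have h4 : (P.eval y) ^ R = 0 := by
      rw [h2]
      refine Finset.sum_eq_zero fun κ _ => ?_
      rw [hV, eval_zero, zero_mul]
    exact eq_zero_of_pow_eq_zero h4
  have h5 : P.coeff κ = 0 := by rw [hP0, coeff_zero]
  rw [hP, finsetSum_coeff] at h5
  rw [← h5]
  rw [Finset.sum_eq_single κ]
  · rw [coeff_C_mul_X_pow, if_pos rfl]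
  · intro b _ hb
    rw [coeff_C_mul_X_pow, if_neg (Ne.symm hb)]
  · intro h
    exact absurd (Finset.mem_range.2 hκ) h

end Pool.Agent.P4f18dfK
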