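import Pool.Agent.Lib.P4f18dfK.Defs

/-!
# P4f18dfK.Rel: the linear relation (dimension count)

PROOF. Linear map `T` from `{(e,k)} → F` (`(e,k) ∈ Ico (m d) R × Ico (m d) (n+1)`, number of coordinates `(R - m d)(n + 1 - m d)`) to `J → F`, where
`J = {(i, κ) : κ < d, i ≤ W, d i + m κ ≤ W}`, `W = R (R - 1) + n`: `T(c)(i, κ)` = the coefficient of `X^i` in `VV ... c κ`. `J` has at most `W + 1` elements:
`(i, κ) ↦ d i + m κ` is injective on it (`m` coprime to `d`, `κ < d`). So `T` has a kernel.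
If `T c = 0` then `VV ... c κ = 0`: for `κ < d` a term has degree at most `R ii(e) + ii(k) + m ((R jj(e) + jj(k)) / d)` and
`d (that) + m κ = R (d ii(e) + m jj(e)) + d ii(k) + m jj(k) = R e + k ≤ W` (with `κ = (R jj(e) + jj(k)) % d`); for `κ ≥ d` all terms are absent.
-/

set_option autoImplicit false

open Polynomial

namespace Pool.Agent.P4f18dfK

namespace RelAux

theorem exists_kernel {F : Type} [Field F] {I J : Type} [Fintype I] [Fintype J] (v : I → J → F)
    (h : Fintype.card J < Fintype.card I) : ∃ c : I → F, c ≠ 0 ∧ ∀ q, ∑ i, c i * v i q = 0 := by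
  have h1 : Module.finrank F (J → F) < Module.finrank F (I → F) := by
    rwa [Module.finrank_fintype_fun_eq_card, Module.finrank_fintype_fun_eq_card]
  have h2 := LinearMap.ker_ne_bot_of_finrank_lt (f := Fintype.linearCombination F v) h1
  obtain ⟨c, hc, hc0⟩ := (Submodule.ne_bot_iff _).1 h2
  refine ⟨c, hc0, fun q => ?_⟩
  have h3 := congrFun (LinearMap.mem_ker.1 hc) q
  rw [Fintype.linearCombination_apply] at h3
  simpa [Finset.sum_apply] using h3

/-- the monomial -/
noncomputable def tm {F : Type} [Field F] (m d R : ℕ) (f : F[X]) (q : ℕ × ℕ) : F[X] :=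
  X ^ (R * ii m d q.1 + ii m d q.2) * f ^ ((R * jj m d q.1 + jj m d q.2) / d)

/-- the class -/
noncomputable def rs (m d R : ℕ) (q : ℕ × ℕ) : ℕ := (R * jj m d q.1 + jj m d q.2) % d

theorem coeff_VV {F : Type} [Field F] (m d R n : ℕ) (f : F[X]) (c : ℕ → ℕ → F) (κ i : ℕ) :
    (VV m d R n f c κ).coeff i = ∑ q ∈ Finset.Ico (m * d) R ×ˢ Finset.Ico (m * d) (n + 1),
      c q.1 q.2 * (if rs m d R q = κ then (tm m d R f q).coeff i else 0) := by
  rw [VV, Finset.sum_product, finsetSum_coeff]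
  refine Finset.sum_congr rfl fun e _ => ?_
  rw [finsetSum_coeff]
  refine Finset.sum_congr rfl fun k _ => ?_
  unfold rs tm
  simp only
  split_ifs with h
  · rw [mul_assoc, coeff_C_mul]
  · rw [coeff_zero, mul_zero]

theorem tm_deg {F : Type} [Field F] {m d R n : ℕ} (hd : 0 < d) (hmd : m.Coprime d) {f : F[X]}
    (hf : f.natDegree ≤ m) {q : ℕ × ℕ} (h1 : q ∈ Finset.Ico (m * d) R ×ˢ Finset.Ico (m * d) (n + 1)) :
    d * (tm m d R f q).natDegree + m * rs m d R q ≤ R * (R - 1) + n := by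
  obtain ⟨e, k⟩ := q
  rw [Finset.mem_product, Finset.mem_Ico, Finset.mem_Ico] at h1
  simp only at h1
  obtain ⟨⟨a1, a2⟩, a3, a4⟩ := h1
  obtain ⟨b1, b2⟩ := ij_spec hd hmd a1
  obtain ⟨b3, b4⟩ := ij_spec hd hmd a3
  have h2 : (tm m d R f (e, k)).natDegree ≤ (R * ii m d e + ii m d k) + ((R * jj m d e + jj m d k) / d) * m := by
    refine natDegree_mul_le.trans (Nat.add_le_add ?_ ?_)
    · exact natDegree_X_pow_le _
    · exact natDegree_pow_le.trans (Nat.mul_le_mul_left _ hf)
  have h3 : d * ((R * jj m d e + jj m d k) / d) + rs m d R (e, k) = R * jj m d e + jj m d k :=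
    Nat.div_add_mod _ _
  have h4 : d * (tm m d R f (e, k)).natDegree + m * rs m d R (e, k) ≤
      R * (d * ii m d e + m * jj m d e) + (d * ii m d k + m * jj m d k) := by
    calc d * (tm m d R f (e, k)).natDegree + m * rs m d R (e, k)
        ≤ d * ((R * ii m d e + ii m d k) + ((R * jj m d e + jj m d k) / d) * m) + m * rs m d R (e, k) :=
          Nat.add_le_add_right (Nat.mul_le_mul_left _ h2) _
      _ = d * (R * ii m d e + ii m d k) + m * (d * ((R * jj m d e + jj m d k) / d) + rs m d R (e, k)) := by ring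
      _ = _ := by rw [h3]; ring
  rw [b2, b4] at h4
  refine h4.trans (Nat.add_le_add (Nat.mul_le_mul_left _ (by omega)) (by omega))

open Classical in
theorem card_J {m d W : ℕ} (hd : 0 < d) (hmd : m.Coprime d) :
    ((Finset.range (W + 1) ×ˢ Finset.range d).filter (fun q => d * q.1 + m * q.2 ≤ W)).card ≤ W + 1 := by
  rw [← Finset.card_range (W + 1)]
  refine Finset.card_le_card_of_injOn (fun q => d * q.1 + m * q.2) ?_ ?_
  · rintro q hq
    rw [Finset.mem_coe, Finset.mem_filter] at hq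
    rw [Finset.mem_coe, Finset.mem_range]
    exact Nat.lt_succ_of_le hq.2
  · rintro ⟨i, κ⟩ hq ⟨i', κ'⟩ hq' h
    rw [Finset.mem_coe, Finset.mem_filter, Finset.mem_product, Finset.mem_range, Finset.mem_range] at hq hq'
    simp only at hq hq' h
    have h1 : m * κ ≡ m * κ' [MOD d] := by
      have h2 : (d * i + m * κ) % d = (d * i' + m * κ') % d := by rw [h]
      rw [Nat.mul_add_mod, Nat.mul_add_mod] at h2
      exact h2
    have h3 : κ ≡ κ' [MOD d] := Nat.ModEq.cancel_left_of_coprime (by rw [Nat.gcd_comm]; exact hmd) h1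
    have h4 : κ = κ' := Nat.ModEq.eq_of_lt_of_lt h3 hq.1.2 hq'.1.2
    subst h4
    have h5 : d * i = d * i' := by omega
    have h6 : i = i' := Nat.eq_of_mul_eq_mul_left hd h5
    rw [h6]

end RelAux

open RelAux in
theorem exists_rel {F : Type} [Field F] {m d R n : ℕ} (hd : 0 < d) (hmd : m.Coprime d) {f : F[X]}
    (hf : f.natDegree ≤ m) (hbig : R * (R - 1) + n + 1 < (R - m * d) * (n + 1 - m * d)) :
    ∃ c : ℕ → ℕ → F,
      (∃ e ∈ Finset.Ico (m * d) R, ∃ k ∈ Finset.Ico (m * d) (n + 1), c e k ≠ 0) ∧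
        ∀ κ, VV m d R n f c κ = 0 := by
  classical
  set I : Finset (ℕ × ℕ) := Finset.Ico (m * d) R ×ˢ Finset.Ico (m * d) (n + 1) with hI
  set J : Finset (ℕ × ℕ) := (Finset.range (R * (R - 1) + n + 1) ×ˢ Finset.range d).filter
    (fun q => d * q.1 + m * q.2 ≤ R * (R - 1) + n) with hJ
  have hcI : I.card = (R - m * d) * (n + 1 - m * d) := by
    rw [hI, Finset.card_product, Nat.card_Ico, Nat.card_Ico]
  have hcJ : J.card ≤ R * (R - 1) + n + 1 := card_J hd hmd
  obtain ⟨c, hc, hc0⟩ := exists_kernel (F := F) (I := I) (J := J)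
    (fun q j => if rs m d R q.1 = j.1.2 then (tm m d R f q.1).coeff j.1.1 else 0)
    (by rw [Fintype.card_coe, Fintype.card_coe, hcI]; omega)
  set c' : ℕ → ℕ → F := fun e k => if h : (e, k) ∈ I then c ⟨(e, k), h⟩ else 0 with hc'
  have hcc : ∀ q : I, c' q.1.1 q.1.2 = c q := by
    rintro ⟨⟨e, k⟩, hek⟩
    rw [hc']
    simp only
    rw [dif_pos hek]
  refine ⟨c', ?_, fun κ => ?_⟩
  · obtain ⟨⟨⟨e, k⟩, hek⟩, h⟩ := Function.ne_iff.1 hc
    have h1 := hek
    rw [hI, Finset.mem_product] at h1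
    refine ⟨e, h1.1, k, h1.2, ?_⟩
    have h2 := hcc ⟨(e, k), hek⟩
    simp only at h2
    rw [h2]
    exact h
  · ext i
    rw [coeff_VV, coeff_zero]
    by_cases hij : (i, κ) ∈ J
    · have h1 := hc0 ⟨(i, κ), hij⟩
      rw [← hI, ← Finset.sum_coe_sort I]
      refine Eq.trans (Finset.sum_congr rfl fun q _ => ?_) h1
      rw [hcc q]
    · refine Finset.sum_eq_zero fun q hq => ?_
      by_cases h2 : rs m d R q = κ
      swap
      · rw [if_neg h2, mul_zero]
      rw [if_pos h2]
      have h3 := tm_deg hd hmd hf hq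
      have h4 : (tm m d R f q).natDegree < i := by
        by_contra h5
        rw [not_lt] at h5
        apply hij
        rw [hJ, Finset.mem_filter, Finset.mem_product, Finset.mem_range, Finset.mem_range]
        have h6 : d * i + m * κ ≤ R * (R - 1) + n := by
          refine le_trans (Nat.add_le_add_right (Nat.mul_le_mul_left _ h5) _) ?_
          rw [← h2]
          exact h3
        have h7 : i ≤ d * i := Nat.le_mul_of_pos_left _ hd
        refine ⟨⟨?_, ?_⟩, h6⟩
        · simp only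
          omega
        · rw [← h2]
          exact Nat.mod_lt _ hd
      rw [coeff_eq_zero_of_natDegree_lt h4, mul_zero]

end Pool.Agent.P4f18dfK
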