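import Pool.Agent.Lib.P4f18dfK.Rel
import Pool.Agent.Lib.P4f18dfK.NZ
import Pool.Agent.Lib.P4f18dfK.Pt

/-!
# P4f18dfK.Step: Stepanov's bound in Bombieri's form for `y^d = f(x)`, `d` coprime to `deg f`

PROOF. `R = p^μ`, `A = m d`. If `R ≤ A^2 + 3A + 1 ≤ (A+2)^2`: the number is at most `Q = R^2`, so `d N ≤ d (A+2)^2 R`. Otherwise `n = R + 2A`: `hbig` of `exists_rel`
(`(R - A)(R + 1 + A) = R^2 + R - A - A^2 > R^2 + 2A + 1 = R (R-1) + n + 1`), `c` from `exists_rel`, `g e k = (c e k)^R`, so `g^R = c^Q = c`, `κ` from `exists_ne`;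
every good `x` is a root of `UU κ` (`pt`), so `N ≤ natDegree`, `d N ≤ R + R n = R^2 + (2A+1) R` (`deg_le`).
-/

set_option autoImplicit false

open Polynomial

namespace Pool.Agent.P4f18dfK

/-- the constant -/
def kC (m d : ℕ) : ℕ := (2 * (m * d) + 1) + d * (m * d + 2) ^ 2

theorem kstep {F : Type} [Field F] [Fintype F] [DecidableEq F] {p μ : ℕ} [Fact p.Prime] [CharP F p] {m d : ℕ}
    (hd : 0 < d) (hmd : m.Coprime d) (hF : Fintype.card F = (p ^ μ) ^ 2) (hdF : d ∣ Fintype.card F - 1)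
    {f : F[X]} (hf : f.natDegree = m) (hf0 : f ≠ 0) :
    d * (Finset.univ.filter (fun x : F => f.eval x ≠ 0 ∧
      f.eval x ^ ((Fintype.card F - 1) / d) = 1)).card ≤ (p ^ μ) ^ 2 + kC m d * p ^ μ := by
  obtain ⟨R, hR⟩ : ∃ R : ℕ, R = p ^ μ := ⟨_, rfl⟩
  obtain ⟨A, hA⟩ : ∃ A : ℕ, A = m * d := ⟨_, rfl⟩
  have hk : kC m d = (2 * A + 1) + d * (A + 2) ^ 2 := by rw [hA]; rfl
  rw [hk]
  rcases Nat.lt_or_ge (A ^ 2 + 3 * A + 1) R with h1 | h1
  · have hbig : R * (R - 1) + (R + 2 * A) + 1 < (R - A) * ((R + 2 * A) + 1 - A) := by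
      obtain ⟨t, rfl⟩ : ∃ t, R = A + t := ⟨R - A, by nlinarith [Nat.sub_add_cancel (show A ≤ R by nlinarith)]⟩
      obtain ⟨s, hs⟩ : ∃ s, A + t = s + 1 := ⟨A + t - 1, by omega⟩
      have e1 : A + t - 1 = s := by omega
      have e2 : A + t - A = t := by omega
      have e3 : A + t + 2 * A + 1 - A = 2 * A + t + 1 := by omega
      rw [e1, e2, e3]
      nlinarith
    rw [hA, hR] at hbig
    obtain ⟨c, hc, hV⟩ := exists_rel (F := F) hd hmd hf.le hbig
    have hcg : ∀ e k, (fun e k => c e k ^ p ^ μ) e k ^ p ^ μ = c e k := fun e k => by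
      show (c e k ^ p ^ μ) ^ p ^ μ = c e k
      rw [← pow_mul, ← sq, ← hF]
      exact FiniteField.pow_card (c e k)
    obtain ⟨e, he, k, hk1, hne⟩ := hc
    obtain ⟨κ, hκ, hU⟩ := exists_ne (F := F) (R := p ^ μ) (n := p ^ μ + 2 * (m * d)) hd hmd hf hf0
      (g := fun e k => c e k ^ p ^ μ) ⟨e, he, k, hk1, pow_ne_zero _ hne⟩
    have hdeg := deg_le (F := F) (R := p ^ μ) (n := p ^ μ + 2 * (m * d)) hd hmd hf.le
      (fun e k => c e k ^ p ^ μ) κ
    have hsub : (Finset.univ.filter (fun x : F => f.eval x ≠ 0 ∧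
        f.eval x ^ ((Fintype.card F - 1) / d) = 1)) ⊆
        (UU m d (p ^ μ) (p ^ μ + 2 * (m * d)) f (fun e k => c e k ^ p ^ μ) κ).roots.toFinset := by
      intro x hx
      rw [Finset.mem_filter] at hx
      rw [Multiset.mem_toFinset, mem_roots hU]
      exact pt hd hF hdF hcg hV hx.2.1 hx.2.2 hκ
    have hcard := (Finset.card_le_card hsub).trans
      ((Multiset.toFinset_card_le _).trans (card_roots' _))
    have h2 := (Nat.mul_le_mul_left d hcard).trans hdeg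
    refine h2.trans ?_
    rw [← hR, ← hA]
    nlinarith [Nat.zero_le (d * (A + 2) ^ 2 * R)]
  · have hcard : (Finset.univ.filter (fun x : F => f.eval x ≠ 0 ∧
        f.eval x ^ ((Fintype.card F - 1) / d) = 1)).card ≤ (p ^ μ) ^ 2 := by
      rw [← hF]
      exact Finset.card_le_univ _
    refine (Nat.mul_le_mul_left d hcard).trans ?_
    rw [← hR]
    have h2 : R ≤ (A + 2) ^ 2 := by nlinarith
    have h3 : d * R ^ 2 ≤ d * (A + 2) ^ 2 * R := by
      rw [sq, ← mul_assoc, mul_assoc d R R, mul_assoc d ((A + 2) ^ 2) R]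
      exact Nat.mul_le_mul_left _ (Nat.mul_le_mul_right _ h2)
    refine h3.trans ?_
    nlinarith [Nat.zero_le (R ^ 2), Nat.zero_le ((2 * A + 1) * R)]

end Pool.Agent.P4f18dfK
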