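import Pool.Agent.Lib.P4f18dfK.Mob
import Pool.Agent.Lib.P4f18dfY.Defs

/-!
# P4f18dfK.WHm: the hypothesis `WH` of the law for all characters
-/

set_option autoImplicit false

namespace Pool.Agent.P4f18dfK

open Finset

theorem wh (m : ℕ) : P4f18dfY.WH m m := by
  classical
  intro p hp χ hχ S hS e he F hF
  haveI := Fact.mk hp
  have h1 : ∑ n ∈ range p, F (n : ZMod p) = ∑ x : ZMod p, F x := by
    refine Finset.sum_bij' (fun k _ => (k : ZMod p)) (fun a _ => a.val) ?_ ?_ ?_ ?_ ?_
    · intro k _; exact Finset.mem_univ _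
    · intro a _; exact Finset.mem_range.2 (ZMod.val_lt _)
    · intro k hk
      exact ZMod.val_cast_of_lt (Finset.mem_range.1 hk)
    · intro a _
      simp
    · intro k _; rfl
  obtain ⟨s, hs, hes⟩ := he
  set b : Fin S.card → ZMod p := fun i => (S.equivFin.symm i : ZMod p) with hb
  have hbi : Function.Injective b := fun i j h => S.equivFin.symm.injective (Subtype.ext h)
  have h2 : ∀ x, F x = ∏ i, (χ ^ e (b i)) (x + b i) := by
    intro x
    rw [hF, ← Finset.prod_coe_sort S (fun s => (χ ^ e s) (x + s))]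
    exact (Fintype.prod_equiv S.equivFin.symm _ _ fun i => rfl).symm
  have h3 : IsCoprime (e (b (S.equivFin ⟨s, hs⟩))) (orderOf χ : ℤ) := by
    have h4 : b (S.equivFin ⟨s, hs⟩) = s := by
      rw [hb]
      simp
    rw [h4]
    rcases hes with h5 | h5
    · rw [h5]
      exact isCoprime_one_left
    · rw [h5]
      exact isCoprime_one_left.neg_left
  have h6 := weil_mul hχ hbi (fun i => e (b i)) (S.equivFin ⟨s, hs⟩) h3
  rw [h1, Finset.sum_congr rfl fun x _ => h2 x]
  refine h6.trans ?_
  exact mul_le_mul_of_nonneg_right (by exact_mod_cast hS) (Real.sqrt_nonneg _)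

end Pool.Agent.P4f18dfK
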